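import Mathlib

/-! Words read along the orbits of a permutation; switching two transitions. -/

namespace Pool.Agent.Q240.Brujn

open Finset Equiv

open scoped Classical

variable {A E : Type} [Fintype A] [Fintype E] (lam : E → A)

/-- the letter read `t` steps after `x` -/
def L (σ : Perm E) (t : ℕ) (x : E) : A := lam ((σ ^ t) x)

/-- the word of length `j` read from `x` -/
def W (σ : Perm E) (j : ℕ) (x : E) : Fin j → A := fun i => L lam σ i x

/-- number of occurrences of a word -/
noncomputable def cnt (σ : Perm E) (j : ℕ) (v : Fin j → A) : ℕ :=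
  (univ.filter (fun x => W lam σ j x = v)).card

/-- number of occurrences of the word `v` followed by `b` -/
noncomputable def T (σ : Perm E) (j : ℕ) (v : Fin j → A) (b : A) : ℕ :=
  (univ.filter (fun x => W lam σ j x = v ∧ L lam σ j x = b)).card

omit [Fintype A] [Fintype E] in
lemma L_succ (σ : Perm E) (t : ℕ) (x : E) : L lam σ (t + 1) x = L lam σ t (σ x) := by
  unfold L
  rw [pow_succ]
  rfl

omit [Fintype A] [Fintype E] in
lemma W_succ_eq_iff (σ : Perm E) (j : ℕ) (x : E) (v : Fin j → A) (b : A) :
    W lam σ (j + 1) x = Fin.snoc v b ↔ W lam σ j x = v ∧ L lam σ j x = b := by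
  constructor
  · intro h
    constructor
    · funext i
      have := congrFun h i.castSucc
      rw [Fin.snoc_castSucc] at this
      simpa [W] using this
    · have := congrFun h (Fin.last j)
      rw [Fin.snoc_last] at this
      simpa [W] using this
  · rintro ⟨h1, h2⟩
    funext i
    refine Fin.lastCases ?_ (fun i => ?_) i
    · rw [Fin.snoc_last]; simpa [W] using h2
    · rw [Fin.snoc_castSucc]
      have := congrFun h1 i
      simpa [W] using this

omit [Fintype A] in
lemma cnt_snoc (σ : Perm E) (j : ℕ) (v : Fin j → A) (b : A) :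
    cnt lam σ (j + 1) (Fin.snoc v b : Fin (j + 1) → A) = T lam σ j v b := by
  unfold cnt T
  congr 1
  ext x
  simp only [mem_filter, mem_univ, true_and]
  exact W_succ_eq_iff lam σ j x v b

omit [Fintype A] [Fintype E] in
lemma W_cons_eq_iff (σ : Perm E) (j : ℕ) (x : E) (u : Fin j → A) (a : A) :
    W lam σ (j + 1) x = Fin.cons a u ↔ lam x = a ∧ W lam σ j (σ x) = u := by
  constructor
  · intro h
    constructor
    · have := congrFun h 0
      simpa [W, L] using this
    · funext i
      have := congrFun h i.succ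
      rw [Fin.cons_succ] at this
      rw [← this]
      simp only [W, Fin.val_succ]
      rw [L_succ]
  · rintro ⟨h1, h2⟩
    funext i
    refine Fin.cases ?_ (fun i => ?_) i
    · simpa [W, L] using h1
    · rw [Fin.cons_succ, ← h2]
      simp only [W, Fin.val_succ]
      rw [L_succ]

/-- row sums -/
lemma sum_row (σ : Perm E) (j : ℕ) (v : Fin j → A) : ∑ b, T lam σ j v b = cnt lam σ j v := by
  unfold T cnt
  rw [card_eq_sum_card_fiberwise (f := L lam σ j) (t := univ) (fun x _ => by simp)]
  refine sum_congr rfl fun b _ => ?_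
  congr 1
  ext x
  simp

/-- column sums -/
lemma sum_col (σ : Perm E) (s : ℕ) (u : Fin s → A) (b : A) :
    ∑ a, T lam σ (s + 1) (Fin.cons a u : Fin (s + 1) → A) b = cnt lam σ (s + 1) (Fin.snoc u b) := by
  have h1 : cnt lam σ (s + 1) (Fin.snoc u b : Fin (s + 1) → A)
      = (univ.filter (fun x => W lam σ s (σ x) = u ∧ L lam σ s (σ x) = b)).card := by
    rw [cnt_snoc]
    unfold T
    refine card_bij (fun x _ => σ⁻¹ x) ?_ ?_ ?_
    · intro x hx
      simpa using hx
    · intro x _ y _ h
      exact (σ⁻¹).injective h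
    · intro x hx
      exact ⟨σ x, by simpa using hx, by simp⟩
  rw [h1, card_eq_sum_card_fiberwise (f := lam) (t := univ) (fun x _ => by simp)]
  refine sum_congr rfl fun a _ => ?_
  unfold T
  congr 1
  ext x
  simp only [mem_filter, mem_univ, true_and]
  rw [W_cons_eq_iff, L_succ]
  tauto

lemma sum_cnt (σ : Perm E) (j : ℕ) : ∑ v, cnt lam σ j v = Fintype.card E := by
  unfold cnt
  rw [← card_univ, card_eq_sum_card_fiberwise (f := W lam σ j) (s := univ) (t := univ)
    (fun x _ => by simp)]

lemma ite_and_mul (P Q : Prop) [Decidable P] [Decidable Q] [Decidable (P ∧ Q)] : (if P ∧ Q then (1 : ℤ) else 0)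
    = (if P then 1 else 0) * (if Q then 1 else 0) := by
  by_cases h1 : P <;> by_cases h2 : Q <;> simp [h1, h2]

lemma ite_comm' {B : Type} (x y : B) [Decidable (x = y)] [Decidable (y = x)] : (if x = y then (1 : ℤ) else 0) = if y = x then 1 else 0 := by
  by_cases h : x = y
  · simp [h]
  · rw [if_neg h, if_neg (Ne.symm h)]

/-- indicator of an equality -/
noncomputable def ind {B : Type} (x y : B) : ℤ := if x = y then 1 else 0

lemma ite_eq_ind {B : Type} (x y : B) [Decidable (x = y)] : (if x = y then (1 : ℤ) else 0) = ind x y := by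
  unfold ind
  congr

lemma ind_comm {B : Type} (x y : B) : ind x y = ind y x := by
  unfold ind
  exact ite_comm' x y

section swap

omit [Fintype A] [Fintype E] in
/-- after switching `e` and `e'`, letters up to distance `s` do not change -/
lemma L_swap {σ : Perm E} {e e' : E} {s : ℕ} (h : ∀ t < s, L lam σ t (σ e) = L lam σ t (σ e')) :
    ∀ t ≤ s, ∀ x, L lam (σ * swap e e') t x = L lam σ t x := by
  intro t
  induction t with
  | zero => intro _ x; simp [L]
  | succ t ih =>
    intro ht x
    rw [L_succ, ih (by omega), L_succ, Perm.mul_apply]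
    by_cases h1 : x = e
    · rw [h1, swap_apply_left]; exact (h t (by omega)).symm
    · by_cases h2 : x = e'
      · rw [h2, swap_apply_right]; exact h t (by omega)
      · rw [swap_apply_of_ne_of_ne h1 h2]

omit [Fintype A] [Fintype E] in
lemma L_swap_last {σ : Perm E} {e e' : E} {s : ℕ}
    (h : ∀ t < s, L lam σ t (σ e) = L lam σ t (σ e')) (x : E) :
    L lam (σ * swap e e') (s + 1) x = L lam σ (s + 1) (swap e e' x) := by
  rw [L_succ, L_swap lam h s le_rfl, Perm.mul_apply, L_succ]

omit [Fintype A] [Fintype E] in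
lemma W_swap {σ : Perm E} {e e' : E} {s : ℕ} (h : ∀ t < s, L lam σ t (σ e) = L lam σ t (σ e'))
    {j : ℕ} (hj : j ≤ s + 1) (x : E) : W lam (σ * swap e e') j x = W lam σ j x := by
  funext i
  exact L_swap lam h i (by omega) x

omit [Fintype A] in
lemma cnt_swap {σ : Perm E} {e e' : E} {s : ℕ} (h : ∀ t < s, L lam σ t (σ e) = L lam σ t (σ e'))
    {j : ℕ} (hj : j ≤ s + 1) (v : Fin j → A) :
    cnt lam (σ * swap e e') j v = cnt lam σ j v := by
  unfold cnt
  simp only [W_swap lam h hj]

/-- the change of the transition table -/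
lemma T_swap {σ : Perm E} {e e' : E} (hne : e ≠ e') {s : ℕ}
    (h : ∀ t < s, L lam σ t (σ e) = L lam σ t (σ e')) (v : Fin (s + 1) → A) (b : A) :
    (T lam (σ * swap e e') (s + 1) v b : ℤ) = T lam σ (s + 1) v b
      + (ind v (W lam σ (s + 1) e') - ind v (W lam σ (s + 1) e))
        * (ind b (L lam σ (s + 1) e) - ind b (L lam σ (s + 1) e')) := by
  have e1 : ∀ τ : Perm E, (T lam τ (s + 1) v b : ℤ)
      = ∑ x, if W lam τ (s + 1) x = v ∧ L lam τ (s + 1) x = b then (1 : ℤ) else 0 := by
    intro τ
    unfold T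
    rw [card_filter]
    push_cast
    rfl
  rw [e1, e1]
  have e2 : ∑ x, (if W lam (σ * swap e e') (s + 1) x = v ∧ L lam (σ * swap e e') (s + 1) x = b
        then (1 : ℤ) else 0)
      = ∑ x, (if W lam σ (s + 1) x = v ∧ L lam σ (s + 1) (swap e e' x) = b then (1 : ℤ) else 0) := by
    refine sum_congr rfl fun x _ => ?_
    rw [W_swap lam h le_rfl, L_swap_last lam h]
  rw [e2, ← sub_eq_iff_eq_add', ← sum_sub_distrib]
  rw [sum_eq_add e e' hne]
  · rw [swap_apply_left, swap_apply_right, ite_and_mul, ite_and_mul, ite_and_mul, ite_and_mul,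
      ite_eq_ind, ite_eq_ind, ite_eq_ind, ite_eq_ind, ind_comm (W lam σ (s + 1) e) v,
      ind_comm (W lam σ (s + 1) e') v, ind_comm (L lam σ (s + 1) e) b,
      ind_comm (L lam σ (s + 1) e') b]
    ring
  · rintro x _ ⟨h1, h2⟩
    rw [swap_apply_of_ne_of_ne h1 h2, sub_self]
  · simp
  · simp

end swap

end Pool.Agent.Q240.Brujn
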