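import Mathlib
import Pool.Agent.Q240.Brujn

/-! Near-uniform word counts, and merging of cycles. -/

namespace Pool.Agent.Q240.Brujn

open Finset Equiv

open scoped Classical

variable {A E : Type} [Fintype A] [Fintype E] (lam : E → A)

/-- the numbers of occurrences of the words of length `j` differ by at most one -/
def NU (σ : Perm E) (j : ℕ) : Prop := ∀ v v' : Fin j → A, cnt lam σ j v ≤ cnt lam σ j v' + 1

lemma sum_ind {X : Type} [Fintype X] (a : X) (f : X → ℤ) : ∑ x, ind x a * f x = f a := by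
  unfold ind
  simp

lemma ind_sq {X : Type} (x a : X) : ind x a * ind x a = ind x a := by
  unfold ind
  by_cases h : x = a <;> simp [h]

lemma ind_mul_ne {X : Type} {a b : X} (h : a ≠ b) (x : X) : ind x a * ind x b = 0 := by
  unfold ind
  by_cases h1 : x = a
  · simp [h1, h]
  · simp [h1]

lemma sum_ind_one {X : Type} [Fintype X] (a : X) : ∑ x, ind x a = 1 := by
  have := sum_ind a (fun _ => (1 : ℤ))
  simpa using this

lemma potential {X Y : Type} [Fintype X] [Fintype Y] (F : X → Y → ℤ) {v v2 : X} {b b' : Y}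
    (hv : v ≠ v2) (hb : b ≠ b') :
    ∑ x, ∑ y, (F x y + (ind x v2 - ind x v) * (ind y b - ind y b')) ^ 2
      = ∑ x, ∑ y, (F x y) ^ 2 + 2 * (F v2 b - F v2 b' - F v b + F v b') + 4 := by
  have h1 : ∀ x y, (F x y + (ind x v2 - ind x v) * (ind y b - ind y b')) ^ 2
      = (F x y) ^ 2 + 2 * (ind x v2 * (ind y b * F x y)) - 2 * (ind x v2 * (ind y b' * F x y))
        - 2 * (ind x v * (ind y b * F x y)) + 2 * (ind x v * (ind y b' * F x y))
        + (ind x v2 + ind x v) * (ind y b + ind y b') := by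
    intro x y
    have a1 := ind_sq x v2
    have a2 := ind_sq x v
    have a3 := ind_sq y b
    have a4 := ind_sq y b'
    have a5 := ind_mul_ne (Ne.symm hv) x
    have a6 := ind_mul_ne hb y
    have e1 : (ind x v2 - ind x v) ^ 2 = ind x v2 + ind x v := by
      linear_combination a1 + a2 - 2 * a5
    have e2 : (ind y b - ind y b') ^ 2 = ind y b + ind y b' := by
      linear_combination a3 + a4 - 2 * a6
    rw [← e1, ← e2]
    ring
  have h2 : ∀ (a : X) (c : Y), ∑ x, ∑ y, 2 * (ind x a * (ind y c * F x y)) = 2 * F a c := by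
    intro a c
    have : ∀ x, ∑ y, 2 * (ind x a * (ind y c * F x y)) = ind x a * (2 * F x c) := by
      intro x
      rw [← mul_sum, ← mul_sum, sum_ind]
      ring
    rw [sum_congr rfl fun x _ => this x, sum_ind]
  have h3 : ∑ x, ∑ y, (ind x v2 + ind x v) * (ind y b + ind y b') = 4 := by
    have : ∀ x, ∑ y, (ind x v2 + ind x v) * (ind y b + ind y b') = (ind x v2 + ind x v) * 2 := by
      intro x
      rw [← mul_sum, sum_add_distrib, sum_ind_one, sum_ind_one]
      norm_num
    rw [sum_congr rfl fun x _ => this x, ← sum_mul, sum_add_distrib, sum_ind_one, sum_ind_one]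
    norm_num
  rw [sum_congr rfl fun x _ => sum_congr rfl fun y _ => h1 x y]
  simp only [sum_add_distrib, sum_sub_distrib]
  rw [h2, h2, h2, h2, h3]
  ring

/-- from near-uniform words of length `s + 1` to near-uniform words of length `s + 2` -/
theorem near_step {s : ℕ} (h0 : ∃ σ : Perm E, NU lam σ (s + 1)) :
    ∃ σ : Perm E, NU lam σ (s + 1) ∧ NU lam σ (s + 2) := by
  set P : Finset (Perm E) := univ.filter (fun σ => NU lam σ (s + 1)) with hP
  have hne : P.Nonempty := by
    obtain ⟨σ, hσ⟩ := h0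
    exact ⟨σ, by rw [hP, mem_filter]; exact ⟨mem_univ _, hσ⟩⟩
  obtain ⟨σ, hσP, hmin⟩ := exists_min_image P
    (fun σ => ∑ x, ∑ y, ((T lam σ (s + 1) x y : ℤ)) ^ 2) hne
  rw [hP, mem_filter] at hσP
  have hNU := hσP.2
  refine ⟨σ, hNU, ?_⟩
  -- rows
  have hrow : ∀ (v : Fin (s + 1) → A) (b b' : A), T lam σ (s + 1) v b ≤ T lam σ (s + 1) v b' + 1 := by
    intro v b b'
    by_contra hcon
    push Not at hcon
    have hbb : b ≠ b' := by
      rintro rfl
      omega
    obtain ⟨a, u, rfl⟩ : ∃ a u, v = (Fin.cons a u : Fin (s + 1) → A) := ⟨v 0, Fin.tail v, by simp⟩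
    have hcol := sum_col lam σ s u b
    have hcol' := sum_col lam σ s u b'
    have hnu := hNU (Fin.snoc u b) (Fin.snoc u b')
    rw [← hcol, ← hcol'] at hnu
    obtain ⟨a', ha'⟩ : ∃ a', T lam σ (s + 1) (Fin.cons a' u : Fin (s + 1) → A) b
        < T lam σ (s + 1) (Fin.cons a' u : Fin (s + 1) → A) b' := by
      by_contra hno
      push Not at hno
      rw [← add_sum_erase univ (fun a => T lam σ (s + 1) (Fin.cons a u : Fin (s + 1) → A) b)
          (mem_univ a),
        ← add_sum_erase univ (fun a => T lam σ (s + 1) (Fin.cons a u : Fin (s + 1) → A) b')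
          (mem_univ a)] at hnu
      have := sum_le_sum (s := univ.erase a) fun x _ => hno x
      omega
    set v2 : Fin (s + 1) → A := Fin.cons a' u with hv2
    have hvv : (Fin.cons a u : Fin (s + 1) → A) ≠ v2 := by
      intro h
      rw [← h] at ha'
      omega
    -- the two elements
    have he : 0 < T lam σ (s + 1) (Fin.cons a u : Fin (s + 1) → A) b := by omega
    have he' : 0 < T lam σ (s + 1) v2 b' := by omega
    unfold T at he he'
    rw [card_pos] at he he'
    obtain ⟨e, he⟩ := he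
    obtain ⟨e', he'⟩ := he'
    rw [mem_filter] at he he'
    obtain ⟨_, hWe, hLe⟩ := he
    obtain ⟨_, hWe', hLe'⟩ := he'
    have hee : e ≠ e' := by
      rintro rfl
      exact hvv (hWe.symm.trans hWe')
    have hu1 := ((W_cons_eq_iff lam σ s e u a).1 hWe).2
    have hu2 := ((W_cons_eq_iff lam σ s e' u a').1 hWe').2
    have hpre : ∀ t < s, L lam σ t (σ e) = L lam σ t (σ e') := by
      intro t ht
      have h1 := congrFun hu1 ⟨t, ht⟩
      have h2 := congrFun hu2 ⟨t, ht⟩
      simp only [W] at h1 h2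
      rw [h1, h2]
    have hmem : σ * swap e e' ∈ P := by
      rw [hP, mem_filter]
      refine ⟨mem_univ _, fun x y => ?_⟩
      rw [cnt_swap lam hpre le_rfl, cnt_swap lam hpre le_rfl]
      exact hNU x y
    have hle := hmin _ hmem
    have hT : ∀ x y, (T lam (σ * swap e e') (s + 1) x y : ℤ) = T lam σ (s + 1) x y
        + (ind x v2 - ind x (Fin.cons a u : Fin (s + 1) → A)) * (ind y b - ind y b') := by
      intro x y
      rw [T_swap lam hee hpre, hWe, hWe', hLe, hLe']
    simp only [hT] at hle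
    rw [potential _ hvv hbb] at hle
    omega
  -- all entries
  intro w w'
  obtain ⟨v, b, rfl⟩ : ∃ v b, w = (Fin.snoc v b : Fin (s + 2) → A) :=
    ⟨Fin.init w, w (Fin.last _), by simp⟩
  obtain ⟨v', b', rfl⟩ : ∃ v b, w' = (Fin.snoc v b : Fin (s + 2) → A) :=
    ⟨Fin.init w', w' (Fin.last _), by simp⟩
  rw [cnt_snoc, cnt_snoc]
  by_contra hcon
  push Not at hcon
  have h1 := hNU v v'
  rw [← sum_row, ← sum_row] at h1
  have h2 : (Fintype.card A : ℤ) * ((T lam σ (s + 1) v b : ℤ) - 1) + 1
      ≤ ∑ y, (T lam σ (s + 1) v y : ℤ) := by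
    have h3 : (1 : ℤ) ≤ ∑ y, ((T lam σ (s + 1) v y : ℤ) - ((T lam σ (s + 1) v b : ℤ) - 1)) := by
      have h4 := single_le_sum (s := univ)
        (f := fun y => ((T lam σ (s + 1) v y : ℤ) - ((T lam σ (s + 1) v b : ℤ) - 1)))
        (fun y _ => by have := hrow v b y; omega) (mem_univ b)
      omega
    rw [sum_sub_distrib, sum_const, card_univ, nsmul_eq_mul] at h3
    linarith
  have h5 : ∑ y, (T lam σ (s + 1) v' y : ℤ)
      ≤ (Fintype.card A : ℤ) * ((T lam σ (s + 1) v' b' : ℤ) + 1) - 1 := by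
    have h3 : (1 : ℤ) ≤ ∑ y, (((T lam σ (s + 1) v' b' : ℤ) + 1) - (T lam σ (s + 1) v' y : ℤ)) := by
      have h4 := single_le_sum (s := univ)
        (f := fun y => (((T lam σ (s + 1) v' b' : ℤ) + 1) - (T lam σ (s + 1) v' y : ℤ)))
        (fun y _ => by have := hrow v' y b'; omega) (mem_univ b')
      omega
    rw [sum_sub_distrib, sum_const, card_univ, nsmul_eq_mul] at h3
    linarith
  have h6 : (∑ y, (T lam σ (s + 1) v y : ℤ)) ≤ ∑ y, (T lam σ (s + 1) v' y : ℤ) + 1 := by
    exact_mod_cast h1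
  have h7 : (T lam σ (s + 1) v' b' : ℤ) + 2 ≤ T lam σ (s + 1) v b := by
    have : T lam σ (s + 1) v' b' + 2 ≤ T lam σ (s + 1) v b := by omega
    exact_mod_cast this
  nlinarith [Int.natCast_nonneg (Fintype.card A)]

theorem near_all (h1 : NU lam (1 : Perm E) 1) (s : ℕ) :
    ∃ σ : Perm E, NU lam σ (s + 1) ∧ NU lam σ (s + 2) := by
  induction s with
  | zero => exact near_step lam ⟨1, h1⟩
  | succ s ih =>
    obtain ⟨σ, _, h⟩ := ih
    exact near_step lam ⟨σ, h⟩

lemma le_of_NU {σ : Perm E} {j k : ℕ} (h : NU lam σ j)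
    (hk : Fintype.card E ≤ k * Fintype.card A ^ j) (w : Fin j → A) : cnt lam σ j w ≤ k := by
  by_contra hcon
  push Not at hcon
  have h1 : k * Fintype.card A ^ j + 1 ≤ ∑ v, cnt lam σ j v := by
    have h2 : ∀ v, k ≤ cnt lam σ j v := fun v => by have := h w v; omega
    have h3 : ∑ v : Fin j → A, k + 1 ≤ ∑ v, cnt lam σ j v := by
      rw [← add_sum_erase univ _ (mem_univ w), ← add_sum_erase univ (fun v => cnt lam σ j v)
        (mem_univ w)]
      have := sum_le_sum (s := univ.erase w) fun v _ => h2 v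
      omega
    rw [sum_const, card_univ, Fintype.card_fun, Fintype.card_fin, smul_eq_mul] at h3
    rw [mul_comm]
    exact h3
  rw [sum_cnt] at h1
  omega

lemma pos_of_NU {σ : Perm E} {j : ℕ} (h : NU lam σ j)
    (hk : Fintype.card A ^ j ≤ Fintype.card E) (w : Fin j → A) : 1 ≤ cnt lam σ j w := by
  by_contra hcon
  push Not at hcon
  have h1 : ∑ v, cnt lam σ j v + 1 ≤ Fintype.card A ^ j := by
    have h2 : ∀ v, cnt lam σ j v ≤ 1 := fun v => by have := h v w; omega
    have h3 : ∑ v, cnt lam σ j v + 1 ≤ ∑ v : Fin j → A, 1 := by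
      rw [← add_sum_erase univ _ (mem_univ w), ← add_sum_erase univ (fun v : Fin j → A => 1)
        (mem_univ w)]
      have := sum_le_sum (s := univ.erase w) fun v _ => h2 v
      omega
    rw [sum_const, card_univ, Fintype.card_fun, Fintype.card_fin, smul_eq_mul, mul_one] at h3
    exact h3
  rw [sum_cnt] at h1
  omega

end Pool.Agent.Q240.Brujn
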