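import Mathlib
import Pool.Agent.Q240.BrujnB

/-! Merging cycles: a single cycle with bounded word counts. -/

namespace Pool.Agent.Q240.Brujn

open Finset Equiv

open scoped Classical

variable {A E : Type} [Fintype A] [Fintype E] (lam : E → A)

omit [Fintype A] in
/-- switching two elements of different cycles merges these cycles -/
lemma merge {σ : Perm E} {e0 e e' : E} (he : σ.SameCycle e0 e) (he' : ¬ σ.SameCycle e0 e') :
    (∀ x, σ.SameCycle e0 x → (σ * swap e e').SameCycle e0 x) ∧ (σ * swap e e').SameCycle e0 e' := by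
  set τ := σ * swap e e' with hτ
  have hne : e ≠ e' := by
    rintro rfl
    exact he' he
  have te : τ e = σ e' := by rw [hτ, Perm.mul_apply, swap_apply_left]
  have te' : τ e' = σ e := by rw [hτ, Perm.mul_apply, swap_apply_right]
  have tx : ∀ x, x ≠ e → x ≠ e' → τ x = σ x := by
    intro x h1 h2
    rw [hτ, Perm.mul_apply, swap_apply_of_ne_of_ne h1 h2]
  have hee' : ¬ σ.SameCycle e e' := fun h => he' (he.trans h)
  -- the cycle of `e`
  have h1 : ∀ n : ℕ, τ.SameCycle (σ e) ((σ ^ n) (σ e)) := by
    intro n
    induction n with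
    | zero => exact Perm.SameCycle.refl _ _
    | succ n ih =>
      rw [pow_succ', Perm.mul_apply]
      by_cases hx : (σ ^ n) (σ e) = e
      · rw [hx]
      · have hx' : (σ ^ n) (σ e) ≠ e' := by
          intro h
          apply hee'
          exact ⟨(n + 1 : ℕ), by rw [zpow_natCast, pow_succ, Perm.mul_apply, h]⟩
        have : τ ((σ ^ n) (σ e)) = σ ((σ ^ n) (σ e)) := tx _ hx hx'
        rw [← this]
        exact ih.trans (Perm.sameCycle_apply_right.2 (Perm.SameCycle.refl _ _))
  have h2 : ∀ n : ℕ, τ.SameCycle (σ e') ((σ ^ n) (σ e')) := by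
    intro n
    induction n with
    | zero => exact Perm.SameCycle.refl _ _
    | succ n ih =>
      rw [pow_succ', Perm.mul_apply]
      by_cases hx : (σ ^ n) (σ e') = e'
      · rw [hx]
      · have hx' : (σ ^ n) (σ e') ≠ e := by
          intro h
          apply hee'
          have : σ.SameCycle e' e := ⟨(n + 1 : ℕ), by rw [zpow_natCast, pow_succ, Perm.mul_apply, h]⟩
          exact this.symm
        have : τ ((σ ^ n) (σ e')) = σ ((σ ^ n) (σ e')) := tx _ hx' hx
        rw [← this]
        exact ih.trans (Perm.sameCycle_apply_right.2 (Perm.SameCycle.refl _ _))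
  have h1' : ∀ x, σ.SameCycle e x → τ.SameCycle (σ e) x := by
    intro x hx
    have : σ.SameCycle (σ e) x := Perm.sameCycle_apply_left.2 hx
    obtain ⟨n, _, hn⟩ := this.exists_pow_eq'
    rw [← hn]
    exact h1 n
  have h2' : ∀ x, σ.SameCycle e' x → τ.SameCycle (σ e') x := by
    intro x hx
    have : σ.SameCycle (σ e') x := Perm.sameCycle_apply_left.2 hx
    obtain ⟨n, _, hn⟩ := this.exists_pow_eq'
    rw [← hn]
    exact h2 n
  have h3 : τ.SameCycle (σ e) (σ e') := by
    have a : τ.SameCycle (σ e) e := h1' e (Perm.SameCycle.refl _ _)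
    have b : τ.SameCycle e (σ e') := by
      rw [← te]
      exact Perm.sameCycle_apply_right.2 (Perm.SameCycle.refl _ _)
    exact a.trans b
  have h0 : τ.SameCycle (σ e) e0 := h1' e0 he.symm
  refine ⟨fun x hx => h0.symm.trans (h1' x (he.symm.trans hx)), ?_⟩
  exact h0.symm.trans (h3.trans (h2' e' (Perm.SameCycle.refl _ _)))

/-- a single cycle -/
theorem single {s k : ℕ} (hk : 1 ≤ k) (e0 : E)
    (h0 : ∃ σ : Perm E, (∀ v, 1 ≤ cnt lam σ (s + 1) v) ∧ ∀ v b, T lam σ (s + 1) v b ≤ k) :
    ∃ σ : Perm E, (∀ x, σ.SameCycle e0 x) ∧ ∀ v b, T lam σ (s + 1) v b ≤ k := by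
  set P : Finset (Perm E) := univ.filter (fun σ => (∀ v, 1 ≤ cnt lam σ (s + 1) v) ∧
    ∀ v b, T lam σ (s + 1) v b ≤ k) with hP
  have hne : P.Nonempty := by
    obtain ⟨σ, hσ⟩ := h0
    exact ⟨σ, by rw [hP, mem_filter]; exact ⟨mem_univ _, hσ⟩⟩
  obtain ⟨σ, hσP, hmax⟩ := exists_max_image P
    (fun σ => (univ.filter (fun x => σ.SameCycle e0 x)).card) hne
  rw [hP, mem_filter] at hσP
  obtain ⟨_, hpos, hT⟩ := hσP
  refine ⟨σ, ?_, hT⟩
  -- no admissible switch leaves the cycle
  have key : ∀ e e', σ.SameCycle e0 e → ¬ σ.SameCycle e0 e' →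
      (∀ t < s, L lam σ t (σ e) = L lam σ t (σ e')) →
      ¬ ∀ v b, T lam (σ * swap e e') (s + 1) v b ≤ k := by
    intro e e' he he' hpre hTT
    have hmem : σ * swap e e' ∈ P := by
      rw [hP, mem_filter]
      refine ⟨mem_univ _, fun v => ?_, hTT⟩
      rw [cnt_swap lam hpre le_rfl]
      exact hpos v
    have hle := hmax _ hmem
    obtain ⟨m1, m2⟩ := merge he he'
    have hlt : (univ.filter (fun x => σ.SameCycle e0 x)).card
        < (univ.filter (fun x => (σ * swap e e').SameCycle e0 x)).card := by
      apply card_lt_card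
      rw [ssubset_iff_of_subset]
      · exact ⟨e', by simpa using m2, by simpa using he'⟩
      · intro x hx
        rw [mem_filter] at hx ⊢
        exact ⟨mem_univ _, m1 x hx.2⟩
    exact absurd hle (by simpa using hlt)
  -- the cycle is closed under equality of words of length `s + 1`
  have c1 : ∀ e e', σ.SameCycle e0 e → W lam σ (s + 1) e = W lam σ (s + 1) e' →
      σ.SameCycle e0 e' := by
    intro e e' he hW
    by_contra he'
    have hne : e ≠ e' := by
      rintro rfl
      exact he' he
    have hpre : ∀ t < s, L lam σ t (σ e) = L lam σ t (σ e') := by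
      intro t ht
      have := congrFun hW ⟨t + 1, by omega⟩
      simp only [W] at this
      rwa [L_succ, L_succ] at this
    refine key e e' he he' hpre fun v b => ?_
    have h1 := T_swap lam hne hpre v b
    rw [hW, sub_self, zero_mul, add_zero] at h1
    have h2 := hT v b
    omega
  -- and under equality of the words of length `s` that follow
  have c2 : ∀ e e', σ.SameCycle e0 e → W lam σ s (σ e) = W lam σ s (σ e') →
      σ.SameCycle e0 e' := by
    intro e e' he hW
    by_contra he'
    have hne : e ≠ e' := by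
      rintro rfl
      exact he' he
    have hpre : ∀ t < s, L lam σ t (σ e) = L lam σ t (σ e') := by
      intro t ht
      have := congrFun hW ⟨t, ht⟩
      simpa only [W] using this
    have hse : σ.SameCycle e0 (σ e) := Perm.sameCycle_apply_right.2 he
    -- words of length `s + 1` read after a step
    have hstep : ∀ x y, W lam σ s (σ x) = W lam σ s (σ y) → L lam σ (s + 1) x = L lam σ (s + 1) y →
        W lam σ (s + 1) (σ x) = W lam σ (s + 1) (σ y) := by
      intro x y h1 h2
      have h3 := (W_succ_eq_iff lam σ s (σ x) (W lam σ s (σ y)) (L lam σ s (σ y))).2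
        ⟨h1, by rw [← L_succ, ← L_succ]; exact h2⟩
      have h4 := (W_succ_eq_iff lam σ s (σ y) (W lam σ s (σ y)) (L lam σ s (σ y))).2 ⟨rfl, rfl⟩
      rw [h3, h4]
    have hWstep : ∀ x y, W lam σ (s + 1) x = W lam σ (s + 1) y → W lam σ s (σ x) = W lam σ s (σ y) := by
      intro x y h
      funext i
      have := congrFun h i.succ
      simp only [W, Fin.val_succ] at this
      rw [L_succ, L_succ] at this
      simpa only [W] using this
    have z1 : T lam σ (s + 1) (W lam σ (s + 1) e) (L lam σ (s + 1) e') = 0 := by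
      unfold T
      rw [card_eq_zero, filter_eq_empty_iff]
      rintro z _ ⟨hz1, hz2⟩
      have hz : σ.SameCycle e0 z := c1 e z he hz1.symm
      have hz3 : W lam σ (s + 1) (σ z) = W lam σ (s + 1) (σ e') :=
        hstep z e' ((hWstep z e hz1).trans hW) hz2
      have := c1 (σ z) (σ e') (Perm.sameCycle_apply_right.2 hz) hz3
      exact he' (Perm.sameCycle_apply_right.1 this)
    have z2 : T lam σ (s + 1) (W lam σ (s + 1) e') (L lam σ (s + 1) e) = 0 := by
      unfold T
      rw [card_eq_zero, filter_eq_empty_iff]
      rintro z _ ⟨hz1, hz2⟩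
      have hz3 : W lam σ (s + 1) (σ e) = W lam σ (s + 1) (σ z) :=
        hstep e z (hW.trans (hWstep e' z hz1.symm)) hz2.symm
      have h1 := c1 (σ e) (σ z) hse hz3
      have h2 : σ.SameCycle e0 z := Perm.sameCycle_apply_right.1 h1
      exact he' (c1 z e' h2 hz1)
    refine key e e' he he' hpre fun v b => ?_
    have h1 := T_swap lam hne hpre v b
    have h2 := hT v b
    by_cases a1 : v = W lam σ (s + 1) e
    · by_cases a4 : b = L lam σ (s + 1) e'
      · -- the entry `(W e, L e')`
        subst a1 a4
        rw [z1] at h1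
        have i1 : ∀ (B : Type) (x y : B), ind x y ≤ 1 ∧ 0 ≤ ind x y := by
          intro B x y
          unfold ind
          by_cases h : x = y <;> simp [h]
        have i2 := i1 _ (W lam σ (s + 1) e) (W lam σ (s + 1) e')
        have i3 := i1 _ (L lam σ (s + 1) e') (L lam σ (s + 1) e)
        have i4 : ind (W lam σ (s + 1) e) (W lam σ (s + 1) e) = 1 := by simp [ind]
        have i5 : ind (L lam σ (s + 1) e') (L lam σ (s + 1) e') = 1 := by simp [ind]
        rw [i4, i5] at h1
        have : ((T lam (σ * swap e e') (s + 1) (W lam σ (s + 1) e) (L lam σ (s + 1) e') : ℕ) : ℤ)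
            ≤ 1 := by
          rw [h1]
          push_cast
          nlinarith [i2.1, i2.2, i3.1, i3.2]
        have h3 : T lam (σ * swap e e') (s + 1) (W lam σ (s + 1) e) (L lam σ (s + 1) e') ≤ 1 := by
          exact_mod_cast this
        omega
      · have i5 : ind b (L lam σ (s + 1) e') = 0 := by simp [ind, a4]
        have i4 : ind v (W lam σ (s + 1) e) = 1 := by simp [ind, a1]
        have i2 : ind v (W lam σ (s + 1) e') ≤ 1 := by
          unfold ind; split_ifs <;> simp
        have i3 : 0 ≤ ind b (L lam σ (s + 1) e) := by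
          unfold ind; split_ifs <;> simp
        rw [i4, i5] at h1
        have : ((T lam (σ * swap e e') (s + 1) v b : ℕ) : ℤ) ≤ T lam σ (s + 1) v b := by
          rw [h1]
          nlinarith
        have h3 : T lam (σ * swap e e') (s + 1) v b ≤ T lam σ (s + 1) v b := by exact_mod_cast this
        omega
    · have i4 : ind v (W lam σ (s + 1) e) = 0 := by simp [ind, a1]
      by_cases a2 : v = W lam σ (s + 1) e'
      · by_cases a3 : b = L lam σ (s + 1) e
        · rw [a2, a3] at h1 ⊢
          rw [z2] at h1
          rw [a2] at i4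
          have i5 : ind (L lam σ (s + 1) e) (L lam σ (s + 1) e) = 1 := by simp [ind]
          have i6 : ind (W lam σ (s + 1) e') (W lam σ (s + 1) e') = 1 := by simp [ind]
          have i7 : 0 ≤ ind (L lam σ (s + 1) e) (L lam σ (s + 1) e') := by
            unfold ind; split_ifs <;> simp
          rw [i4, i5, i6] at h1
          have : ((T lam (σ * swap e e') (s + 1) (W lam σ (s + 1) e') (L lam σ (s + 1) e) : ℕ) : ℤ)
              ≤ 1 := by
            rw [h1]
            push_cast
            linarith
          have h3 : T lam (σ * swap e e') (s + 1) (W lam σ (s + 1) e') (L lam σ (s + 1) e) ≤ 1 := by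
            exact_mod_cast this
          omega
        · have i5 : ind b (L lam σ (s + 1) e) = 0 := by simp [ind, a3]
          have i6 : ind v (W lam σ (s + 1) e') = 1 := by simp [ind, a2]
          have i7 : 0 ≤ ind b (L lam σ (s + 1) e') := by
            unfold ind; split_ifs <;> simp
          rw [i4, i5, i6] at h1
          have : ((T lam (σ * swap e e') (s + 1) v b : ℕ) : ℤ) ≤ T lam σ (s + 1) v b := by
            rw [h1]
            linarith
          have h3 : T lam (σ * swap e e') (s + 1) v b ≤ T lam σ (s + 1) v b := by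
            exact_mod_cast this
          omega
      · have i6 : ind v (W lam σ (s + 1) e') = 0 := by simp [ind, a2]
        rw [i4, i6, sub_self, zero_mul, add_zero] at h1
        omega
  -- every word is read somewhere on the cycle
  have c3 : ∀ (w : Fin (s + 1) → A) (i : ℕ), i ≤ s + 1 → ∃ x, σ.SameCycle e0 x ∧
      ∀ t (ht : t < i), ∀ (ht' : t < s + 1), L lam σ (s + 1 - i + t) x = w ⟨t, ht'⟩ := by
    intro w i
    induction i with
    | zero => intro _; exact ⟨e0, Perm.SameCycle.refl _ _, fun t ht => absurd ht (by omega)⟩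
    | succ i ih =>
      intro hi
      obtain ⟨x, hx, hxw⟩ := ih (by omega)
      set v : Fin (s + 1) → A := Fin.snoc (W lam σ s (σ x)) (w ⟨i, by omega⟩) with hv
      have h1 := hpos v
      unfold cnt at h1
      obtain ⟨z, hz⟩ := card_pos.1 (by omega : 0 < (univ.filter (fun x => W lam σ (s + 1) x = v)).card)
      rw [mem_filter] at hz
      have hzv := (W_succ_eq_iff lam σ s z _ _).1 hz.2
      have hz' : σ.SameCycle e0 (σ⁻¹ z) := by
        apply c2 x (σ⁻¹ z) hx
        rw [show σ (σ⁻¹ z) = z from Equiv.apply_symm_apply σ z]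
        exact hzv.1.symm
      have hz'' : σ.SameCycle e0 z := by
        have := (Perm.sameCycle_apply_right (f := σ) (x := e0) (y := σ⁻¹ z)).2 hz'
        rwa [show σ (σ⁻¹ z) = z from Equiv.apply_symm_apply σ z] at this
      refine ⟨z, hz'', fun t ht ht' => ?_⟩
      by_cases hti : t = i
      · subst hti
        rw [show s + 1 - (t + 1) + t = s by omega]
        exact hzv.2
      · have h2 := hxw t (by omega) ht'
        rw [show s + 1 - i + t = (s + 1 - (i + 1) + t) + 1 by omega, L_succ] at h2
        have h3 := congrFun hzv.1 ⟨s + 1 - (i + 1) + t, by omega⟩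
        simp only [W] at h3
        rw [h3, h2]
  intro y
  obtain ⟨x, hx, hxw⟩ := c3 (W lam σ (s + 1) y) (s + 1) le_rfl
  refine c1 x y hx ?_
  funext t
  have := hxw t t.2 t.2
  rw [show s + 1 - (s + 1) + (t : ℕ) = t by omega] at this
  simpa [W] using this

end Pool.Agent.Q240.Brujn
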