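import Mathlib
import Pool.Agent.Q240.BrujnC

/-! Balanced generalized de Bruijn sequences. -/

namespace Pool.Agent.Q240.Brujn

open Finset Equiv

open scoped Classical

/-- a permutation with a single cycle is a rotation -/
lemma exists_phi {E : Type} [Fintype E] (σ : Perm E) (e0 : E) (hs : ∀ x, σ.SameCycle e0 x)
    (n : ℕ) [NeZero n] (hn : Fintype.card E = n) :
    ∃ φ : ZMod n → E, Function.Bijective φ ∧ ∀ (i : ZMod n) (j : ℕ),
      φ (i + (j : ZMod n)) = (σ ^ j) (φ i) := by
  set p := Function.minimalPeriod σ e0 with hp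
  have hper : e0 ∈ Function.periodicPts (σ : E → E) :=
    σ.injective.mem_periodicPts e0
  have hp0 : 0 < p := Function.minimalPeriod_pos_of_mem_periodicPts hper
  have hpow : ∀ (t : ℕ) (x : E), (σ ^ t) x = (σ : E → E)^[t] x := by
    intro t x
    rw [← Perm.iterate_eq_pow]
  have hmod : ∀ t : ℕ, (σ : E → E)^[t % p] e0 = (σ : E → E)^[t] e0 := fun t =>
    Function.iterate_mod_minimalPeriod_eq
  have hbij : Function.Bijective (fun i : Fin p => (σ : E → E)^[(i : ℕ)] e0) := by
    constructor
    · intro i j hij
      exact Fin.ext (Function.iterate_injOn_Iio_minimalPeriod (Set.mem_Iio.2 i.2)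
        (Set.mem_Iio.2 j.2) hij)
    · intro x
      obtain ⟨t, _, ht⟩ := (hs x).exists_pow_eq'
      refine ⟨⟨t % p, Nat.mod_lt _ hp0⟩, ?_⟩
      show (σ : E → E)^[t % p] e0 = x
      rw [hmod, ← hpow]
      exact ht
  have hpn : p = n := by
    have := Fintype.card_of_bijective hbij
    rw [Fintype.card_fin] at this
    rw [this, hn]
  rw [hpn] at hmod
  have key : ∀ (i : ZMod n) (j : ℕ), (σ : E → E)^[(i + (j : ZMod n)).val] e0
      = (σ ^ j) ((σ : E → E)^[i.val] e0) := by
    intro i j
    rw [ZMod.val_add, ZMod.val_natCast, Nat.add_mod_mod, hmod, hpow, ← Function.iterate_add_apply,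
      add_comm]
  refine ⟨fun i => (σ : E → E)^[i.val] e0, ?_, key⟩
  have hsurj : Function.Surjective (fun i : ZMod n => (σ : E → E)^[i.val] e0) := by
    intro x
    obtain ⟨t, _, ht⟩ := (hs x).exists_pow_eq'
    refine ⟨(t : ZMod n), ?_⟩
    show (σ : E → E)^[(t : ZMod n).val] e0 = x
    rw [ZMod.val_natCast, hmod, ← hpow]
    exact ht
  refine (Fintype.bijective_iff_surjective_and_card _).2 ⟨hsurj, ?_⟩
  rw [ZMod.card, hn]

/-- the number of positions at which `w` is read in the cyclic sequence `a` -/
noncomputable def occ {A : Type} {n : ℕ} [NeZero n] (a : ZMod n → A) {l : ℕ} (w : Fin l → A) : ℕ :=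
  (univ.filter (fun i : ZMod n => ∀ j : Fin l, a (i + ((j : ℕ) : ZMod n)) = w j)).card

/-- the main case -/
theorem exists_main {A : Type} [Fintype A] (hA : 2 ≤ Fintype.card A) {n s k : ℕ} [NeZero n]
    (hk : 1 ≤ k) (hdvd : Fintype.card A ∣ n) (h1 : Fintype.card A ^ (s + 1) ≤ n)
    (h2 : n ≤ k * Fintype.card A ^ (s + 2)) :
    ∃ a : ZMod n → A, (∀ w : Fin (s + 2) → A, occ a w ≤ k) ∧
      ∀ x, Fintype.card A * (univ.filter (fun i => a i = x)).card = n := by
  obtain ⟨N, hN⟩ := hdvd
  have hn0 : 0 < n := Nat.pos_of_ne_zero (NeZero.ne n)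
  have hN0 : 0 < N := by
    rcases Nat.eq_zero_or_pos N with h | h
    · rw [h] at hN; omega
    · exact h
  have hA0 : 0 < Fintype.card A := by omega
  obtain ⟨x0⟩ := Fintype.card_pos_iff.1 hA0
  set lam : A × Fin N → A := Prod.fst with hlam
  have hcard : Fintype.card (A × Fin N) = n := by
    rw [Fintype.card_prod, Fintype.card_fin, ← hN]
  have hletter : ∀ x : A, (univ.filter (fun e : A × Fin N => lam e = x)).card = N := by
    intro x
    have : univ.filter (fun e : A × Fin N => lam e = x) = ({x} : Finset A) ×ˢ (univ : Finset (Fin N)) := by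
      ext e
      rw [mem_filter, mem_product, mem_singleton]
      simp [hlam]
    rw [this, card_product, card_singleton, card_univ, Fintype.card_fin, one_mul]
  have hNU : NU lam (1 : Perm (A × Fin N)) 1 := by
    have h : ∀ v : Fin 1 → A, cnt lam (1 : Perm (A × Fin N)) 1 v = N := by
      intro v
      refine Eq.trans ?_ (hletter (v 0))
      unfold cnt
      congr 1
      ext e
      simp only [mem_filter, mem_univ, true_and]
      constructor
      · intro h
        have := congrFun h 0
        simpa [W, L] using this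
      · intro h
        funext i
        have hi : i = 0 := Subsingleton.elim _ _
        subst hi
        simpa [W, L] using h
    intro v v'
    rw [h, h]
    omega
  obtain ⟨σ0, g1, g2⟩ := near_all lam hNU s
  obtain ⟨σ, hcyc, hT⟩ := single lam hk ((x0, ⟨0, hN0⟩) : A × Fin N) (s := s)
    ⟨σ0, fun v => pos_of_NU lam g1 (by rw [hcard]; exact h1) v, fun v b => by
      rw [← cnt_snoc]
      exact le_of_NU lam g2 (by rw [hcard]; exact h2) _⟩
  obtain ⟨φ, hφ, hφa⟩ := exists_phi σ _ hcyc n hcard
  refine ⟨fun i => lam (φ i), fun w => ?_, fun x => ?_⟩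
  · have h3 : occ (fun i => lam (φ i)) w = cnt lam σ (s + 2) w := by
      unfold occ cnt
      apply card_bij (fun i _ => φ i)
      · intro i hi
        rw [mem_filter] at hi ⊢
        refine ⟨mem_univ _, ?_⟩
        funext j
        have := hi.2 j
        simp only [hφa] at this
        exact this
      · intro i _ j _ h
        exact hφ.1 h
      · intro e he
        obtain ⟨i, hi⟩ := hφ.2 e
        refine ⟨i, ?_, hi⟩
        rw [mem_filter] at he ⊢
        refine ⟨mem_univ _, fun j => ?_⟩
        simp only [hφa, hi]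
        exact congrFun he.2 j
    rw [h3]
    have h4 := hT (Fin.init w) (w (Fin.last (s + 1)))
    rw [← cnt_snoc, Fin.snoc_init_self] at h4
    exact h4
  · have h3 : (univ.filter (fun i => lam (φ i) = x)).card
        = (univ.filter (fun e : A × Fin N => lam e = x)).card := by
      apply card_bij (fun i _ => φ i)
      · intro i hi
        rw [mem_filter] at hi ⊢
        exact ⟨mem_univ _, hi.2⟩
      · intro i _ j _ h
        exact hφ.1 h
      · intro e he
        obtain ⟨i, hi⟩ := hφ.2 e
        refine ⟨i, ?_, hi⟩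
        rw [mem_filter] at he ⊢
        exact ⟨mem_univ _, by rw [hi]; exact he.2⟩
    rw [h3, hletter, ← hN]

/-- existence in all cases -/
theorem exists_all {A : Type} [Fintype A] (hA : 2 ≤ Fintype.card A) {n l k : ℕ} [NeZero n]
    (hl : 1 ≤ l) (hk : 1 ≤ k) (hdvd : Fintype.card A ∣ n)
    (h2 : n ≤ k * Fintype.card A ^ l) :
    ∃ a : ZMod n → A, (∀ w : Fin l → A, occ a w ≤ k) ∧
      ∀ x, Fintype.card A * (univ.filter (fun i => a i = x)).card = n := by
  have hn0 : 0 < n := Nat.pos_of_ne_zero (NeZero.ne n)
  have hAn : Fintype.card A ≤ n := Nat.le_of_dvd hn0 hdvd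
  rcases Nat.lt_or_ge l 2 with hl2 | hl2
  · -- words of length one
    have hl1 : l = 1 := by omega
    subst hl1
    obtain ⟨a, _, ha⟩ := exists_main (s := 0) (k := n) hA hn0 hdvd (by simpa using hAn)
      (Nat.le_mul_of_pos_right _ (by positivity))
    refine ⟨a, fun w => ?_, ha⟩
    have h3 : occ a w = (univ.filter (fun i => a i = w 0)).card := by
      unfold occ
      congr 1
      ext i
      simp only [mem_filter, mem_univ, true_and]
      constructor
      · intro h
        have := h 0
        simpa using this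
      · intro h j
        have hj : j = 0 := Subsingleton.elim _ _
        subst hj
        simpa using h
    rw [h3]
    have h4 := ha (w 0)
    rw [← h4, pow_one, mul_comm] at h2
    exact Nat.le_of_mul_le_mul_right h2 (by omega)
  · rcases Nat.lt_or_ge n (Fintype.card A ^ (l - 1)) with h3 | h3
    · -- few positions: all words of a smaller length are distinct
      set l' := Nat.log (Fintype.card A) n with hl'
      have h4 : Fintype.card A ^ l' ≤ n := Nat.pow_log_le_self _ (by omega)
      have h5 : n < Fintype.card A ^ (l' + 1) := Nat.lt_pow_succ_log_self (by omega) _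
      have h6 : 1 ≤ l' := by
        by_contra h
        have : l' = 0 := by omega
        rw [this] at h5
        simp at h5
        omega
      have h7 : l' < l - 1 := by
        by_contra h
        push Not at h
        have := Nat.pow_le_pow_right (show 0 < Fintype.card A by omega) h
        omega
      obtain ⟨s, hs⟩ : ∃ s, l' = s + 1 := ⟨l' - 1, by omega⟩
      rw [hs] at h4 h5
      obtain ⟨a, h8, ha⟩ := exists_main (s := s) (k := 1) hA le_rfl hdvd h4 (by
        rw [one_mul]; exact h5.le)
      refine ⟨a, fun w => ?_, ha⟩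
      refine le_trans ?_ hk
      refine le_trans ?_ (h8 (fun j => w ⟨j, by omega⟩))
      unfold occ
      apply card_le_card
      intro i hi
      rw [mem_filter] at hi ⊢
      exact ⟨mem_univ _, fun j => hi.2 ⟨j, by omega⟩⟩
    · obtain ⟨s, rfl⟩ : ∃ s, l = s + 2 := ⟨l - 2, by omega⟩
      exact exists_main hA hk hdvd (by simpa using h3) h2

/-- necessity of the counting condition -/
theorem le_of_exists {A : Type} [Fintype A] {n l k : ℕ} [NeZero n] (a : ZMod n → A)
    (h : ∀ w : Fin l → A, occ a w ≤ k) : n ≤ k * Fintype.card A ^ l := by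
  have h1 : Fintype.card (ZMod n) = ∑ w : Fin l → A, occ a w := by
    rw [← card_univ, card_eq_sum_card_fiberwise (t := univ)
      (f := fun i : ZMod n => fun j : Fin l => a (i + ((j : ℕ) : ZMod n))) (fun _ _ => by simp)]
    apply sum_congr rfl
    intro w _
    unfold occ
    congr 1
    ext i
    simp only [mem_filter, mem_univ, true_and]
    exact funext_iff
  rw [ZMod.card] at h1
  rw [h1]
  calc ∑ w : Fin l → A, occ a w ≤ ∑ w : Fin l → A, k := sum_le_sum fun w _ => h w
    _ = k * Fintype.card A ^ l := by
      rw [sum_const, card_univ, Fintype.card_fun, Fintype.card_fin, smul_eq_mul, mul_comm]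

end Pool.Agent.Q240.Brujn
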