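import Mathlib
import Pool.Agent.Helper543.Melchior

/-! Counting lemmas for the lines determined by a finite set of points of the real plane. -/

namespace Pool.Agent.Q240.LineArr

open Finset Pool.Agent.Helper543.Melchior

noncomputable section

open scoped Classical

/-- every pair of distinct points of `S` lies on exactly one line -/
lemma sum_pairs {S : Finset Pt} (E : Finset (Pt × Pt))
    (hE : ∀ e ∈ E, e.1 ∈ S ∧ e.2 ∈ S ∧ e.1 ≠ e.2) :
    ∑ M ∈ lines S, (E.filter (fun e => e.1 ∈ M ∧ e.2 ∈ M)).card = E.card := by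
  have hmap : ∀ e ∈ E, lineOf S e.1 e.2 ∈ lines S := fun e he =>
    lineOf_mem_lines (hE e he).1 (hE e he).2.1 (hE e he).2.2
  rw [card_eq_sum_card_fiberwise (f := fun e : Pt × Pt => lineOf S e.1 e.2) (s := E)
    (t := lines S) (fun e he => by simpa using hmap e (by simpa using he))]
  refine sum_congr rfl fun M hM => ?_
  congr 1
  ext e
  simp only [mem_filter]
  constructor
  · rintro ⟨he, h1, h2⟩
    exact ⟨he, (eq_lineOf hM h1 h2 (hE e he).2.2).symm⟩
  · rintro ⟨he, h⟩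
    refine ⟨he, ?_, ?_⟩
    · rw [← h]; exact mem_lineOf.2 ⟨(hE e he).1, cr_self_left _ _⟩
    · rw [← h]; exact mem_lineOf.2 ⟨(hE e he).2.1, cr_self_right _ _⟩

lemma sum_prod {S B C : Finset Pt} (hB : B ⊆ S) (hC : C ⊆ S) (hd : Disjoint B C) :
    ∑ M ∈ lines S, (B ∩ M).card * (C ∩ M).card = B.card * C.card := by
  rw [← card_product, ← sum_pairs (S := S) (B ×ˢ C)]
  · refine sum_congr rfl fun M _ => ?_
    rw [← card_product]
    congr 1
    ext e
    simp only [mem_product, mem_inter, mem_filter]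
    tauto
  · intro e he
    rw [mem_product] at he
    refine ⟨hB he.1, hC he.2, fun h => ?_⟩
    exact (disjoint_left.1 hd he.1) (h ▸ he.2)

lemma sum_offDiag {S B : Finset Pt} (hB : B ⊆ S) :
    ∑ M ∈ lines S, ((B ∩ M).offDiag).card = B.offDiag.card := by
  rw [← sum_pairs (S := S) (B.offDiag)]
  · refine sum_congr rfl fun M _ => ?_
    congr 1
    ext e
    simp only [mem_offDiag, mem_inter, mem_filter]
    tauto
  · intro e he
    rw [mem_offDiag] at he
    exact ⟨hB he.1, hB he.2.1, he.2.2⟩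

lemma cast_offDiag {α : Type*} (B : Finset α) :
    ((B.offDiag.card : ℕ) : ℤ) = (B.card : ℤ) * ((B.card : ℤ) - 1) := by
  rw [offDiag_card]
  have : B.card ≤ B.card * B.card := Nat.le_mul_self _
  push_cast [Nat.cast_sub this]
  ring

lemma sum_offDiagZ {S B : Finset Pt} (hB : B ⊆ S) :
    ∑ M ∈ lines S, ((B ∩ M).card : ℤ) * (((B ∩ M).card : ℤ) - 1)
      = (B.card : ℤ) * ((B.card : ℤ) - 1) := by
  have := sum_offDiag hB
  have h2 : ((∑ M ∈ lines S, ((B ∩ M).offDiag).card : ℕ) : ℤ) = ((B.offDiag.card : ℕ) : ℤ) := by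
    rw [this]
  rw [cast_offDiag] at h2
  rw [← h2]
  push_cast
  exact sum_congr rfl fun M _ => (cast_offDiag _).symm

/-- the pencil estimate -/
lemma pencil {S M₀ : Finset Pt} (hM : M₀ ∈ lines S) :
    2 * (((S.card : ℤ) - M₀.card) * M₀.card) + 2
      ≤ 2 * ((lines S).card : ℤ) + ((S.card : ℤ) - M₀.card) * ((S.card : ℤ) - M₀.card - 1) := by
  have hsub := line_subset hM
  set O := S \ M₀ with hO
  have hOS : O ⊆ S := sdiff_subset
  have hOc : (O.card : ℤ) = (S.card : ℤ) - M₀.card := by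
    rw [hO, card_sdiff_of_subset hsub, Nat.cast_sub (card_le_card hsub)]
  have hdis : Disjoint O M₀ := sdiff_disjoint
  have h1 := sum_prod hOS hsub hdis
  have h1' : ∑ M ∈ lines S, ((O ∩ M).card : ℤ) * ((M₀ ∩ M).card : ℤ)
      = (O.card : ℤ) * M₀.card := by
    exact_mod_cast h1
  have h2 := sum_offDiagZ hOS
  rw [← hOc]
  -- split off `M₀`
  have e1 : ∑ M ∈ lines S, ((O ∩ M).card : ℤ) * ((M₀ ∩ M).card : ℤ)
      ≤ ∑ M ∈ (lines S).erase M₀, ((O ∩ M).card : ℤ) := by
    rw [← add_sum_erase _ _ hM]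
    have h0 : ((O ∩ M₀).card : ℤ) = 0 := by
      rw [disjoint_iff_inter_eq_empty.1 hdis]; simp
    rw [h0, zero_mul, zero_add]
    refine sum_le_sum fun M hM' => ?_
    have hle : (M₀ ∩ M).card ≤ 1 := by
      rw [card_le_one]
      intro a ha b hb
      by_contra hab
      rw [mem_inter] at ha hb
      have := eq_lineOf hM ha.1 hb.1 hab
      have h' := eq_lineOf (mem_of_mem_erase hM') ha.2 hb.2 hab
      exact (ne_of_mem_erase hM') (h'.trans this.symm)
    have hle' : ((M₀ ∩ M).card : ℤ) ≤ 1 := by exact_mod_cast hle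
    nlinarith [Int.natCast_nonneg (O ∩ M).card]
  have e2 : ∑ M ∈ (lines S).erase M₀, (2 * ((O ∩ M).card : ℤ))
      ≤ ∑ M ∈ (lines S).erase M₀, (2 + ((O ∩ M).card : ℤ) * (((O ∩ M).card : ℤ) - 1)) := by
    refine sum_le_sum fun M _ => ?_
    have : ((O ∩ M).card : ℤ) ≤ 1 ∨ 2 ≤ ((O ∩ M).card : ℤ) := by omega
    rcases this with h | h
    · nlinarith [Int.natCast_nonneg (O ∩ M).card]
    · nlinarith
  have e3 : ∑ M ∈ (lines S).erase M₀, ((O ∩ M).card : ℤ) * (((O ∩ M).card : ℤ) - 1)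
      = (O.card : ℤ) * ((O.card : ℤ) - 1) := by
    rw [← h2, ← add_sum_erase _ _ hM]
    have h0 : ((O ∩ M₀).card : ℤ) = 0 := by
      rw [disjoint_iff_inter_eq_empty.1 hdis]; simp
    rw [h0]; ring
  rw [sum_add_distrib, e3, sum_const, card_erase_of_mem hM, ← mul_sum] at e2
  have hpos : 1 ≤ (lines S).card := card_pos.2 ⟨M₀, hM⟩
  rw [nsmul_eq_mul, Nat.cast_sub hpos] at e2
  push_cast at e2
  linarith

/-- the estimate for a family of lines -/
lemma family {S : Finset Pt} (B : Finset (Finset Pt)) (hB : B ⊆ lines S) (c : ℤ) :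
    2 * c * ∑ M ∈ B, (M.card : ℤ) ≤ (B.card : ℤ) * ((B.card : ℤ) - 1) + (S.card : ℤ) * (c * (c + 1)) := by
  set x : Pt → ℤ := fun p => ((B.filter (fun M => p ∈ M)).card : ℤ) with hx
  have h1 : ∑ M ∈ B, (M.card : ℤ) = ∑ p ∈ S, x p := by
    have : ∀ M ∈ B, (M.card : ℤ) = ∑ p ∈ S, if p ∈ M then (1 : ℤ) else 0 := by
      intro M hM
      rw [← sum_filter, sum_const, nsmul_eq_mul, mul_one]
      congr 2
      ext p
      rw [mem_filter]
      exact ⟨fun h => ⟨line_subset (hB hM) h, h⟩, fun h => h.2⟩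
    rw [sum_congr rfl this, sum_comm]
    refine sum_congr rfl fun p _ => ?_
    rw [hx, ← sum_filter, sum_const, nsmul_eq_mul, mul_one]
  have h2 : ∑ p ∈ S, x p * (x p - 1) ≤ (B.card : ℤ) * ((B.card : ℤ) - 1) := by
    rw [← cast_offDiag]
    have e : ∀ p ∈ S, x p * (x p - 1)
        = (((B.offDiag).filter (fun e => p ∈ e.1 ∧ p ∈ e.2)).card : ℤ) := by
      intro p _
      rw [hx]
      simp only
      rw [← cast_offDiag]
      congr 2
      ext e
      simp only [mem_offDiag, mem_filter]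
      tauto
    rw [sum_congr rfl e]
    have : ∀ p ∈ S, ((((B.offDiag).filter (fun e => p ∈ e.1 ∧ p ∈ e.2)).card : ℕ) : ℤ)
        = ∑ e ∈ B.offDiag, if p ∈ e.1 ∧ p ∈ e.2 then (1 : ℤ) else 0 := by
      intro p _
      rw [← sum_filter, sum_const, nsmul_eq_mul, mul_one]
    rw [sum_congr rfl this, sum_comm]
    have hle : ∀ e ∈ B.offDiag, ∑ p ∈ S, (if p ∈ e.1 ∧ p ∈ e.2 then (1 : ℤ) else 0) ≤ 1 := by
      intro e he
      rw [mem_offDiag] at he
      rw [← sum_filter, sum_const, nsmul_eq_mul, mul_one]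
      have : (S.filter (fun p => p ∈ e.1 ∧ p ∈ e.2)).card ≤ 1 := by
        rw [card_le_one]
        intro a ha b hb
        by_contra hab
        rw [mem_filter] at ha hb
        have h1 := eq_lineOf (hB he.1) ha.2.1 hb.2.1 hab
        have h2 := eq_lineOf (hB he.2.1) ha.2.2 hb.2.2 hab
        exact he.2.2 (h1.trans h2.symm)
      exact_mod_cast this
    calc _ ≤ ∑ e ∈ B.offDiag, (1 : ℤ) := sum_le_sum hle
      _ = _ := by rw [sum_const, nsmul_eq_mul, mul_one]
  have h3 : ∑ p ∈ S, 2 * c * x p ≤ ∑ p ∈ S, (x p * (x p - 1) + c * (c + 1)) := by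
    refine sum_le_sum fun p _ => ?_
    have : x p ≤ c ∨ c + 1 ≤ x p := by omega
    rcases this with h | h
    · nlinarith
    · nlinarith
  rw [sum_add_distrib, sum_const, nsmul_eq_mul, ← mul_sum, ← h1] at h3
  linarith

end

end Pool.Agent.Q240.LineArr
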