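import Mathlib
import Pool.Agent.Q240.LineArrA

/-! At least `2n - 4` lines are determined by `n ≥ 10` points of the real plane, unless some
`n - 1` of them are collinear. -/

namespace Pool.Agent.Q240.LineArr

open Finset Pool.Agent.Helper543.Melchior

noncomputable section

open scoped Classical

lemma sum_full {S : Finset Pt} :
    ∑ M ∈ lines S, ((M.card : ℤ) * ((M.card : ℤ) - 1)) = (S.card : ℤ) * ((S.card : ℤ) - 1) := by
  rw [← sum_offDiagZ (S := S) (B := S) subset_rfl]
  refine sum_congr rfl fun M hM => ?_
  rw [inter_eq_right.2 (line_subset hM)]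

/-- sums over lines of at most six points, by number of points -/
lemma sum_small {V : Finset (Finset Pt)} (h2 : ∀ M ∈ V, 2 ≤ M.card) (h6 : ∀ M ∈ V, M.card ≤ 6)
    (g : ℕ → ℤ) :
    ∑ M ∈ V, g M.card = g 2 * ((V.filter (fun M => M.card = 2)).card : ℤ)
      + g 3 * ((V.filter (fun M => M.card = 3)).card : ℤ)
      + g 4 * ((V.filter (fun M => M.card = 4)).card : ℤ)
      + g 5 * ((V.filter (fun M => M.card = 5)).card : ℤ)
      + g 6 * ((V.filter (fun M => M.card = 6)).card : ℤ) := by
  have e : ∀ j : ℕ, g j * ((V.filter (fun M => M.card = j)).card : ℤ)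
      = ∑ M ∈ V, if M.card = j then g j else 0 := by
    intro j
    rw [← sum_filter, sum_const, nsmul_eq_mul, mul_comm]
  rw [e, e, e, e, e, ← sum_add_distrib, ← sum_add_distrib, ← sum_add_distrib, ← sum_add_distrib]
  refine sum_congr rfl fun M hM => ?_
  have a := h2 M hM
  have b := h6 M hM
  have : M.card = 2 ∨ M.card = 3 ∨ M.card = 4 ∨ M.card = 5 ∨ M.card = 6 := by omega
  rcases this with h | h | h | h | h <;> simp [h]

theorem main {S : Finset Pt} (hn : 10 ≤ S.card) (h : ∀ M ∈ lines S, M.card + 2 ≤ S.card) :
    2 * S.card ≤ (lines S).card + 4 := by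
  by_contra hcon
  push Not at hcon
  -- the points are not collinear
  have hnc : ∃ a ∈ S, ∃ b ∈ S, ∃ c ∈ S, cr a b c ≠ 0 := by
    obtain ⟨a, ha, b, hb, hab⟩ := one_lt_card.1 (by omega : 1 < S.card)
    have hM := lineOf_mem_lines ha hb hab
    have hlt : (lineOf S a b).card < S.card := by have := h _ hM; omega
    obtain ⟨c, hc, hc'⟩ := exists_mem_notMem_of_card_lt_card hlt
    exact ⟨a, ha, b, hb, c, hc, fun h0 => hc' (mem_lineOf.2 ⟨hc, h0⟩)⟩
  have hmel := melchior hnc
  have hmel' : ∑ M ∈ lines S, (M.card : ℤ) + 3 ≤ 3 * ((lines S).card : ℤ) := by exact_mod_cast hmel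
  have hfull := sum_full (S := S)
  have h2 : ∀ M ∈ lines S, 2 ≤ M.card := by
    intro M hM
    obtain ⟨a, ha, b, hb, hab⟩ := exists_two hM
    exact one_lt_card.2 ⟨a, ha, b, hb, hab⟩
  -- every line has at most `(n + 4) / 3` points
  have h3 : ∀ M ∈ lines S, 3 * M.card ≤ S.card + 4 := by
    intro M hM
    by_contra hc
    push Not at hc
    have hp := pencil hM
    have hk := h M hM
    have c1 : (S.card : ℤ) + 5 ≤ 3 * (M.card : ℤ) := by exact_mod_cast hc
    have c2 : (M.card : ℤ) + 2 ≤ S.card := by exact_mod_cast hk
    have c3 : ((lines S).card : ℤ) + 5 ≤ 2 * S.card := by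
      have : (lines S).card + 5 ≤ 2 * S.card := by omega
      exact_mod_cast this
    nlinarith [mul_nonneg (by linarith : (0:ℤ) ≤ (S.card : ℤ) - M.card - 2)
      (by linarith : (0:ℤ) ≤ 3 * (M.card : ℤ) - S.card - 5)]
  set n : ℕ := S.card with hnn
  set f : ℕ := (lines S).card with hff
  have hfn : (f : ℤ) + 5 ≤ 2 * (n : ℤ) := by
    have : f + 5 ≤ 2 * n := by omega
    exact_mod_cast this
  by_cases h16 : 16 ≤ n
  · -- large `n`
    have hq : 0 ≤ ∑ M ∈ lines S, ((M.card : ℤ) - 2) * ((n : ℤ) + 4 - 3 * M.card) := by
      refine sum_nonneg fun M hM => mul_nonneg ?_ ?_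
      · have := h2 M hM
        have : (2 : ℤ) ≤ M.card := by exact_mod_cast this
        linarith
      · have := h3 M hM
        have : 3 * (M.card : ℤ) ≤ n + 4 := by exact_mod_cast this
        linarith
    have he : ∑ M ∈ lines S, ((M.card : ℤ) - 2) * ((n : ℤ) + 4 - 3 * M.card)
        = ((n : ℤ) + 7) * ∑ M ∈ lines S, (M.card : ℤ)
          - 3 * ∑ M ∈ lines S, ((M.card : ℤ) * ((M.card : ℤ) - 1)) - 2 * ((n : ℤ) + 4) * f := by
      rw [mul_sum, mul_sum, hff, ← sum_sub_distrib]
      have : (2 * ((n : ℤ) + 4) * ((lines S).card : ℤ)) = ∑ M ∈ lines S, (2 * ((n : ℤ) + 4)) := by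
        rw [sum_const, nsmul_eq_mul]; ring
      rw [this, ← sum_sub_distrib]
      refine sum_congr rfl fun M _ => ?_
      ring
    rw [he, hfull] at hq
    have hn16 : (16 : ℤ) ≤ n := by exact_mod_cast h16
    nlinarith [mul_le_mul_of_nonneg_left hmel' (by linarith : (0:ℤ) ≤ (n : ℤ) + 7),
      mul_le_mul_of_nonneg_left hfn (by linarith : (0:ℤ) ≤ (n : ℤ) + 13)]
  · push Not at h16
    have h6 : ∀ M ∈ lines S, M.card ≤ 6 := fun M hM => by
      have := h3 M hM
      omega
    have s0 := sum_small h2 h6 (fun _ => 1)
    have s1 := sum_small h2 h6 (fun k => (k : ℤ))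
    have s2 := sum_small h2 h6 (fun k => (k : ℤ) * ((k : ℤ) - 1))
    simp only [sum_const, nsmul_eq_mul, mul_one, one_mul] at s0
    rw [hfull] at s2
    push_cast at s1 s2
    -- families of rich lines
    have fam : ∀ (j : ℕ) (c : ℤ), 2 * c * (j * (((lines S).filter (fun M => M.card = j)).card : ℤ))
        ≤ (((lines S).filter (fun M => M.card = j)).card : ℤ)
          * ((((lines S).filter (fun M => M.card = j)).card : ℤ) - 1) + (n : ℤ) * (c * (c + 1)) := by
      intro j c
      have := family ((lines S).filter (fun M => M.card = j)) (filter_subset _ _) c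
      have e : ∑ M ∈ (lines S).filter (fun M => M.card = j), (M.card : ℤ)
          = j * (((lines S).filter (fun M => M.card = j)).card : ℤ) := by
        rw [sum_congr rfl (g := fun _ => (j : ℤ)), sum_const, nsmul_eq_mul, mul_comm]
        intro M hM
        rw [(mem_filter.1 hM).2]
      rw [e] at this
      exact this
    have fam4 : ∀ c : ℤ, 2 * c * (4 * (((lines S).filter (fun M => M.card = 4)).card : ℤ)
          + 5 * (((lines S).filter (fun M => M.card = 5)).card : ℤ)
          + 6 * (((lines S).filter (fun M => M.card = 6)).card : ℤ))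
        ≤ ((((lines S).filter (fun M => M.card = 4)).card : ℤ)
            + (((lines S).filter (fun M => M.card = 5)).card : ℤ)
            + (((lines S).filter (fun M => M.card = 6)).card : ℤ))
          * (((((lines S).filter (fun M => M.card = 4)).card : ℤ)
            + (((lines S).filter (fun M => M.card = 5)).card : ℤ)
            + (((lines S).filter (fun M => M.card = 6)).card : ℤ)) - 1)
          + (n : ℤ) * (c * (c + 1)) := by
      intro c
      have := family ((lines S).filter (fun M => 4 ≤ M.card)) (filter_subset _ _) c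
      have e1 : ∑ M ∈ (lines S).filter (fun M => 4 ≤ M.card), (M.card : ℤ)
          = 4 * (((lines S).filter (fun M => M.card = 4)).card : ℤ)
          + 5 * (((lines S).filter (fun M => M.card = 5)).card : ℤ)
          + 6 * (((lines S).filter (fun M => M.card = 6)).card : ℤ) := by
        rw [sum_filter]
        have := sum_small h2 h6 (fun k => if 4 ≤ k then (k : ℤ) else 0)
        simpa using this
      have e2 : (((lines S).filter (fun M => 4 ≤ M.card)).card : ℤ)
          = (((lines S).filter (fun M => M.card = 4)).card : ℤ)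
            + (((lines S).filter (fun M => M.card = 5)).card : ℤ)
            + (((lines S).filter (fun M => M.card = 6)).card : ℤ) := by
        have := sum_small h2 h6 (fun k => if 4 ≤ k then (1 : ℤ) else 0)
        simpa using this
      rw [e1, e2] at this
      exact this
    have hz5 : n ≤ 10 → ((lines S).filter (fun M => M.card = 5)).card = 0 := by
      intro hn10
      rw [card_eq_zero, filter_eq_empty_iff]
      intro M hM h5
      have := h3 M hM
      omega
    have hz6 : n ≤ 13 → ((lines S).filter (fun M => M.card = 6)).card = 0 := by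
      intro hn10
      rw [card_eq_zero, filter_eq_empty_iff]
      intro M hM h5
      have := h3 M hM
      omega
    have f51 := fam 5 1
    have f61 := fam 6 1
    have f42 := fam4 2
    rw [s1] at hmel'
    clear_value n f
    generalize ((lines S).filter (fun M => M.card = 2)).card = t2 at *
    generalize ((lines S).filter (fun M => M.card = 3)).card = t3 at *
    generalize ((lines S).filter (fun M => M.card = 4)).card = t4 at *
    generalize ((lines S).filter (fun M => M.card = 5)).card = t5 at *
    generalize ((lines S).filter (fun M => M.card = 6)).card = t6 at *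
    clear fam fam4 h2 h3 h6 h hnc hmel hfull
    have key : n = 10 ∨ n = 11 ∨ n = 12 ∨ n = 13 ∨ n = 14 ∨ n = 15 := by omega
    rcases key with rfl | rfl | rfl | rfl | rfl | rfl
    · have a5 := hz5 (by norm_num)
      have a6 := hz6 (by norm_num)
      subst a5 a6
      push_cast at *
      have e3 : t3 = 0 := by omega
      have e4 : t4 = 6 := by omega
      subst e3 e4
      norm_num at f42
    · have a6 := hz6 (by norm_num)
      subst a6
      push_cast at *
      have e5 : t5 ≤ 5 := by omega
      have e5' : t5 ≤ 2 := by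
        by_contra hc
        have : t5 = 3 ∨ t5 = 4 ∨ t5 = 5 := by omega
        rcases this with rfl | rfl | rfl <;> norm_num at f51
      have e3 : t3 = 0 := by omega
      have e4 : t4 = 4 := by omega
      have e5'' : t5 = 2 := by omega
      subst e3 e4 e5''
      norm_num at f42
    · have a6 := hz6 (by norm_num)
      subst a6
      push_cast at *
      have e5 : t5 ≤ 6 := by omega
      have e5' : t5 ≤ 3 := by
        by_contra hc
        have : t5 = 4 ∨ t5 = 5 ∨ t5 = 6 := by omega
        rcases this with rfl | rfl | rfl <;> norm_num at f51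
      omega
    · have a6 := hz6 (by norm_num)
      subst a6
      push_cast at *
      omega
    · push_cast at *
      have e5 : t6 ≤ 6 := by omega
      have e5' : t6 ≤ 2 := by
        by_contra hc
        have : t6 = 3 ∨ t6 = 4 ∨ t6 = 5 ∨ t6 = 6 := by omega
        rcases this with rfl | rfl | rfl | rfl <;> norm_num at f61
      omega
    · push_cast at *
      omega

end

end Pool.Agent.Q240.LineArr
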