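import Mathlib

/-! The projective plane over a field in affine coordinates. -/

namespace Pool.Agent.Q240.PlaneModel

/-- points: affine points, directions of finite slope, the vertical direction -/
inductive Pt (K : Type) : Type
  | aff (x y : K) : Pt K
  | dir (m : K) : Pt K
  | vert : Pt K

/-- lines: `y = m x + b`, `x = c`, the line at infinity -/
inductive Ln (K : Type) : Type
  | ln (m b : K) : Ln K
  | vl (c : K) : Ln K
  | inf : Ln K

variable {K : Type}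

/-- incidence -/
def inc [Field K] : Pt K → Ln K → Prop
  | .aff x y, .ln m b => y = m * x + b
  | .aff x _, .vl c => x = c
  | .aff _ _, .inf => False
  | .dir m', .ln m _ => m' = m
  | .dir _, .vl _ => False
  | .dir _, .inf => True
  | .vert, .ln _ _ => False
  | .vert, .vl _ => True
  | .vert, .inf => True

instance [Field K] : Membership (Pt K) (Ln K) := ⟨fun l p => inc p l⟩

section
variable [Field K]

@[simp] lemma aff_ln {x y m b : K} : Pt.aff x y ∈ Ln.ln m b ↔ y = m * x + b := Iff.rfl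
@[simp] lemma aff_vl {x y c : K} : Pt.aff x y ∈ Ln.vl c ↔ x = c := Iff.rfl
@[simp] lemma aff_inf {x y : K} : Pt.aff x y ∈ (Ln.inf : Ln K) ↔ False := Iff.rfl
@[simp] lemma dir_ln {m' m b : K} : Pt.dir m' ∈ Ln.ln m b ↔ m' = m := Iff.rfl
@[simp] lemma dir_vl {m' c : K} : Pt.dir m' ∈ Ln.vl c ↔ False := Iff.rfl
@[simp] lemma dir_inf {m' : K} : Pt.dir m' ∈ (Ln.inf : Ln K) ↔ True := Iff.rfl
@[simp] lemma vert_ln {m b : K} : (Pt.vert : Pt K) ∈ Ln.ln m b ↔ False := Iff.rfl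
@[simp] lemma vert_vl {c : K} : (Pt.vert : Pt K) ∈ Ln.vl c ↔ True := Iff.rfl
@[simp] lemma vert_inf : (Pt.vert : Pt K) ∈ (Ln.inf : Ln K) ↔ True := Iff.rfl

lemma exists_pt (l₁ l₂ : Ln K) : ∃ p : Pt K, p ∈ l₁ ∧ p ∈ l₂ := by
  rcases l₁ with ⟨m, b⟩ | c | _ <;> rcases l₂ with ⟨m', b'⟩ | c' | _
  · by_cases h : m = m'
    · exact ⟨.dir m, by simp, by simp [h]⟩
    · have h' : m - m' ≠ 0 := sub_ne_zero.2 h
      refine ⟨.aff ((b' - b) / (m - m')) (m * ((b' - b) / (m - m')) + b), by simp, ?_⟩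
      simp only [aff_ln]
      field_simp
      ring
  · exact ⟨.aff c' (m * c' + b), by simp, by simp⟩
  · exact ⟨.dir m, by simp, by simp⟩
  · exact ⟨.aff c (m' * c + b'), by simp, by simp⟩
  · exact ⟨.vert, by simp, by simp⟩
  · exact ⟨.vert, by simp, by simp⟩
  · exact ⟨.dir m', by simp, by simp⟩
  · exact ⟨.vert, by simp, by simp⟩
  · exact ⟨.vert, by simp, by simp⟩

lemma exists_ln (p₁ p₂ : Pt K) : ∃ l : Ln K, p₁ ∈ l ∧ p₂ ∈ l := by
  rcases p₁ with ⟨x, y⟩ | m | _ <;> rcases p₂ with ⟨x', y'⟩ | m' | _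
  · by_cases h : x = x'
    · exact ⟨.vl x, by simp, by simp [h]⟩
    · have h' : x' - x ≠ 0 := sub_ne_zero.2 (Ne.symm h)
      refine ⟨.ln ((y' - y) / (x' - x)) (y - (y' - y) / (x' - x) * x), by simp, ?_⟩
      simp only [aff_ln]
      field_simp
      ring
  · exact ⟨.ln m' (y - m' * x), by simp, by simp⟩
  · exact ⟨.vl x, by simp, by simp⟩
  · exact ⟨.ln m (y' - m * x'), by simp, by simp⟩
  · exact ⟨.inf, by simp, by simp⟩
  · exact ⟨.inf, by simp, by simp⟩
  · exact ⟨.vl x', by simp, by simp⟩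
  · exact ⟨.inf, by simp, by simp⟩
  · exact ⟨.inf, by simp, by simp⟩

lemma eq_or_eq' {p₁ p₂ : Pt K} {l₁ l₂ : Ln K} (h1 : p₁ ∈ l₁) (h2 : p₂ ∈ l₁) (h3 : p₁ ∈ l₂)
    (h4 : p₂ ∈ l₂) : p₁ = p₂ ∨ l₁ = l₂ := by
  rcases l₁ with ⟨m, b⟩ | c | _ <;> rcases l₂ with ⟨m', b'⟩ | c' | _ <;>
    rcases p₁ with ⟨x, y⟩ | n | _ <;> rcases p₂ with ⟨x', y'⟩ | n' | _ <;>
    simp_all
  rename_i hh
  have h5 : (m - m') * (x - x') = 0 := by
    linear_combination h3 - h4
  rcases mul_eq_zero.1 h5 with h | h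
  · right
    have hm : m = m' := sub_eq_zero.1 h
    subst hm
    exact ⟨rfl, add_left_cancel h3⟩
  · left
    exact ⟨sub_eq_zero.1 h, Or.inl (sub_eq_zero.1 h)⟩

noncomputable instance : Configuration.ProjectivePlane (Pt K) (Ln K) where
  exists_point l := by
    rcases l with ⟨m, b⟩ | c | _
    · exact ⟨.vert, by simp⟩
    · exact ⟨.dir 0, by simp⟩
    · exact ⟨.aff 0 0, by simp⟩
  exists_line p := by
    rcases p with ⟨x, y⟩ | m | _
    · exact ⟨.inf, by simp⟩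
    · exact ⟨.vl 0, by simp⟩
    · exact ⟨.ln 0 0, by simp⟩
  eq_or_eq := eq_or_eq'
  mkPoint := fun {l₁ l₂} _ => Classical.choose (exists_pt l₁ l₂)
  mkPoint_ax := fun {l₁ l₂} _ => Classical.choose_spec (exists_pt l₁ l₂)
  mkLine := fun {p₁ p₂} _ => Classical.choose (exists_ln p₁ p₂)
  mkLine_ax := fun {p₁ p₂} _ => Classical.choose_spec (exists_ln p₁ p₂)
  exists_config := ⟨.aff 1 1, .aff 0 0, .aff 1 0, .inf, .ln 0 0, .vl 0, by simp⟩

end

/-- points as a sum type -/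
def ptEquiv : Pt K ≃ (K × K) ⊕ (K ⊕ Unit) where
  toFun
    | .aff x y => Sum.inl (x, y)
    | .dir m => Sum.inr (Sum.inl m)
    | .vert => Sum.inr (Sum.inr ())
  invFun
    | Sum.inl (x, y) => .aff x y
    | Sum.inr (Sum.inl m) => .dir m
    | Sum.inr (Sum.inr _) => .vert
  left_inv := by rintro (⟨x, y⟩ | m | _) <;> rfl
  right_inv := by rintro (⟨x, y⟩ | m | _) <;> rfl

/-- lines as a sum type -/
def lnEquiv : Ln K ≃ (K × K) ⊕ (K ⊕ Unit) where
  toFun
    | .ln x y => Sum.inl (x, y)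
    | .vl m => Sum.inr (Sum.inl m)
    | .inf => Sum.inr (Sum.inr ())
  invFun
    | Sum.inl (x, y) => .ln x y
    | Sum.inr (Sum.inl m) => .vl m
    | Sum.inr (Sum.inr _) => .inf
  left_inv := by rintro (⟨x, y⟩ | m | _) <;> rfl
  right_inv := by rintro (⟨x, y⟩ | m | _) <;> rfl

noncomputable instance [Fintype K] : Fintype (Pt K) := Fintype.ofEquiv _ ptEquiv.symm
noncomputable instance [Fintype K] : Fintype (Ln K) := Fintype.ofEquiv _ lnEquiv.symm

lemma card_pt [Fintype K] : Fintype.card (Pt K) = Fintype.card K ^ 2 + Fintype.card K + 1 := by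
  rw [Fintype.card_congr ptEquiv]
  simp [sq, add_assoc]

lemma card_ln [Fintype K] : Fintype.card (Ln K) = Fintype.card K ^ 2 + Fintype.card K + 1 := by
  rw [Fintype.card_congr lnEquiv]
  simp [sq, add_assoc]

end Pool.Agent.Q240.PlaneModel
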