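import Mathlib
import Pool.Agent.Q240.PlaneModel

/-! Many `k`-dominating independent sets in the incidence graph of a projective plane with a
subfield of index two or more. -/

namespace Pool.Agent.Q240.PlaneDIS

open Pool.Agent.Q240.PlaneModel Finset

open scoped Classical

/-- the incidence graph of a configuration -/
def incGraph (P L : Type) [Membership P L] : SimpleGraph (P ⊕ L) where
  Adj
    | Sum.inl p, Sum.inr l => p ∈ l
    | Sum.inr l, Sum.inl p => p ∈ l
    | _, _ => False
  symm := ⟨by rintro (p | l) (p' | l') h <;> exact h⟩
  loopless := ⟨by rintro (p | l) h <;> exact h⟩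

/-- `D` is a `k`-dominating independent set of the graph `G`: no two vertices of `D` are adjacent,
and every vertex outside `D` has at least `k` neighbours in `D` -/
def IsKDIS {V : Type} (G : SimpleGraph V) (k : ℕ) (D : Finset V) : Prop :=
  (∀ u ∈ D, ∀ v ∈ D, ¬ G.Adj u v) ∧ ∀ v, v ∉ D → k ≤ (D.filter (fun u => G.Adj v u)).card

/-- the number of `k`-dominating independent sets of a finite graph -/
noncomputable def numKDIS {V : Type} [Fintype V] (G : SimpleGraph V) (k : ℕ) : ℕ :=
  ((univ : Finset (Finset V)).filter (fun D => IsKDIS G k D)).card

section

variable {F K : Type} [Field F] [Field K] [Algebra F K] [Fintype F] [Fintype K]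

/-- the point set -/
def inP (π : K →ₗ[F] F) (T : Finset (F × F)) : Pt K → Prop
  | .aff x y => (π x, π y) ∈ T
  | .dir m => m ∉ Set.range (algebraMap F K)
  | .vert => False

/-- the point set together with the lines that do not meet it -/
noncomputable def DD (π : K →ₗ[F] F) (T : Finset (F × F)) : Finset (Pt K ⊕ Ln K) :=
  univ.filter (fun v => match v with
    | Sum.inl p => inP π T p
    | Sum.inr l => ∀ p : Pt K, p ∈ l → ¬ inP π T p)

lemma mem_DD_inl {π : K →ₗ[F] F} {T : Finset (F × F)} {p : Pt K} :
    (Sum.inl p : Pt K ⊕ Ln K) ∈ DD π T ↔ inP π T p := by
  simp [DD]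

lemma mem_DD_inr {π : K →ₗ[F] F} {T : Finset (F × F)} {l : Ln K} :
    (Sum.inr l : Pt K ⊕ Ln K) ∈ DD π T ↔ ∀ p : Pt K, p ∈ l → ¬ inP π T p := by
  simp [DD]

lemma pi_mul (π : K →ₗ[F] F) (a : F) (x : K) : π (algebraMap F K a * x) = a * π x := by
  rw [← Algebra.smul_def, map_smul, smul_eq_mul]

/-- the map `x ↦ (π x, π (m x))` is onto when `m` is not in the small field -/
lemma surj {π : K →ₗ[F] F} (hπ : π ≠ 0) {m : K} (hm : m ∉ Set.range (algebraMap F K))
    (t : F × F) : ∃ x : K, π x = t.1 ∧ π (m * x) = t.2 := by
  set φ : K →ₗ[F] F × F := π.prod (π.comp (LinearMap.mulLeft F m)) with hφ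
  have hrange : LinearMap.range φ = ⊤ := by
    by_contra hne
    obtain ⟨f, hf, hle⟩ := Submodule.exists_le_ker_of_lt_top _ (lt_top_iff_ne_top.2 hne)
    set a := f (1, 0) with ha
    set b := f (0, 1) with hb
    have hfe : ∀ u : F × F, f u = u.1 * a + u.2 * b := by
      intro u
      have : u = u.1 • ((1, 0) : F × F) + u.2 • ((0, 1) : F × F) := by
        ext <;> simp
      conv_lhs => rw [this]
      rw [map_add, map_smul, map_smul, smul_eq_mul, smul_eq_mul]
    have hz : ∀ x : K, π ((algebraMap F K a + algebraMap F K b * m) * x) = 0 := by
      intro x
      have h1 : f (φ x) = 0 := hle ⟨x, rfl⟩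
      rw [hfe] at h1
      rw [add_mul, mul_assoc, map_add, pi_mul, pi_mul]
      have e1 : (φ x).1 = π x := rfl
      have e2 : (φ x).2 = π (m * x) := rfl
      rw [e1, e2] at h1
      linear_combination h1
    have hc : algebraMap F K a + algebraMap F K b * m = 0 := by
      by_contra hc
      apply hπ
      ext x
      have := hz ((algebraMap F K a + algebraMap F K b * m)⁻¹ * x)
      rw [mul_inv_cancel_left₀ hc] at this
      simpa using this
    by_cases hb0 : b = 0
    · rw [hb0, map_zero, zero_mul, add_zero] at hc
      have ha0 : a = 0 := by simpa using hc
      apply hf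
      ext <;> simp [hfe, ha0, hb0]
    · apply hm
      refine ⟨-a / b, ?_⟩
      have hb' : algebraMap F K b ≠ 0 := by simpa using hb0
      rw [map_div₀, map_neg, div_eq_iff hb']
      linear_combination -hc
  have : t ∈ LinearMap.range φ := by rw [hrange]; trivial
  obtain ⟨x, hx⟩ := this
  exact ⟨x, congrArg Prod.fst hx, congrArg Prod.snd hx⟩

variable {k q : ℕ}

/-- the main construction -/
theorem isKDIS {π : K →ₗ[F] F} (hπ : π ≠ 0) {T : Finset (F × F)}
    (hker : k ≤ (univ.filter (fun u : K => π u = 0)).card)
    (hout : k ≤ (univ.filter (fun m : K => m ∉ Set.range (algebraMap F K))).card)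
    (hk : 1 ≤ k) (hT1 : k ≤ T.card) (hT2 : T.card + k ≤ Fintype.card F) :
    IsKDIS (incGraph (Pt K) (Ln K)) k (DD π T) := by
  have hTne : T.Nonempty := card_pos.1 (by omega)
  refine ⟨?_, ?_⟩
  · rintro (p | l) hu (p' | l') hv
    · exact fun h => h
    · rw [mem_DD_inl] at hu
      rw [mem_DD_inr] at hv
      exact fun h => hv p h hu
    · rw [mem_DD_inr] at hu
      rw [mem_DD_inl] at hv
      exact fun h => hu p' h hv
    · exact fun h => h
  · -- domination
    rintro (p | l) hv
    · -- points
      rw [mem_DD_inl] at hv
      -- it suffices to give an injection into external lines through `p`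
      have suff : ∀ {α : Type} (s : Finset α) (f : α → Ln K), Set.InjOn f (s : Set α) →
          (∀ a ∈ s, p ∈ f a ∧ ∀ p' : Pt K, p' ∈ f a → ¬ inP π T p') → k ≤ s.card →
          k ≤ ((DD π T).filter (fun u => (incGraph (Pt K) (Ln K)).Adj (Sum.inl p) u)).card := by
        intro α s f hinj hf hs
        refine hs.trans (card_le_card_of_injOn (fun a => Sum.inr (f a)) ?_ ?_)
        · intro a ha
          have := hf a (by simpa using ha)
          rw [mem_coe, mem_filter, mem_DD_inr]
          exact ⟨this.2, this.1⟩
        · intro a ha b hb hab
          exact hinj ha hb (Sum.inr_injective hab)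
      rcases p with ⟨x, y⟩ | m | _
      · -- affine points
        simp only [inP] at hv
        set σ : F × F → F := fun t => (t.2 - π y) / (t.1 - π x) with hσ
        refine suff (univ \ T.image σ) (fun a => Ln.ln (algebraMap F K a) (y - algebraMap F K a * x))
          ?_ ?_ ?_
        · intro a _ b _ hab
          simp only [Ln.ln.injEq] at hab
          exact (algebraMap F K).injective hab.1
        · intro a ha
          rw [mem_sdiff] at ha
          refine ⟨by simp, ?_⟩
          rintro (⟨x', y'⟩ | m | _) hp' hin
          · simp only [aff_ln] at hp'
            simp only [inP] at hin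
            have h1 : π y' - π y = a * (π x' - π x) := by
              rw [hp', ← map_sub, ← map_sub, ← pi_mul]
              congr 1
              ring
            by_cases hx : π x' - π x = 0
            · apply hv
              have e1 : π x' = π x := sub_eq_zero.1 hx
              rw [hx, mul_zero] at h1
              have e2 : π y' = π y := sub_eq_zero.1 h1
              rwa [e1, e2] at hin
            · apply ha.2
              rw [mem_image]
              refine ⟨_, hin, ?_⟩
              simp only [hσ]
              rw [h1, mul_div_cancel_right₀ _ hx]
          · simp only [dir_ln] at hp'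
            simp only [inP] at hin
            exact hin ⟨a, hp'.symm⟩
          · simp at hp'
        · rw [card_sdiff_of_subset (subset_univ _), card_univ]
          have : (T.image σ).card ≤ T.card := card_image_le
          omega
      · -- directions of the small field
        simp only [inP, not_not] at hv
        obtain ⟨a, rfl⟩ := hv
        -- a missing intercept
        obtain ⟨c, hc⟩ : ∃ c : F, c ∉ T.image (fun t => t.2 - a * t.1) := by
          by_contra hcon
          push Not at hcon
          have : (univ : Finset F).card ≤ (T.image (fun t => t.2 - a * t.1)).card :=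
            card_le_card (fun c _ => hcon c)
          rw [card_univ] at this
          have : (T.image (fun t : F × F => t.2 - a * t.1)).card ≤ T.card := card_image_le
          omega
        obtain ⟨b₀, hb₀⟩ := LinearMap.surjective hπ c
        refine suff (univ.filter (fun u : K => π u = 0)) (fun u => Ln.ln (algebraMap F K a) (b₀ + u))
          ?_ ?_ hker
        · intro u _ v _ huv
          simp only [Ln.ln.injEq, true_and] at huv
          exact add_left_cancel huv
        · intro u hu
          rw [mem_filter] at hu
          refine ⟨by simp, ?_⟩
          rintro (⟨x', y'⟩ | m | _) hp' hin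
          · simp only [aff_ln] at hp'
            simp only [inP] at hin
            apply hc
            rw [mem_image]
            refine ⟨_, hin, ?_⟩
            simp only
            rw [hp', map_add, map_add, pi_mul, hu.2, hb₀]
            ring
          · simp only [dir_ln] at hp'
            simp only [inP] at hin
            exact hin ⟨a, hp'.symm⟩
          · simp at hp'
      · -- the vertical direction
        obtain ⟨c, hc⟩ : ∃ c : F, c ∉ T.image (fun t => t.1) := by
          by_contra hcon
          push Not at hcon
          have : (univ : Finset F).card ≤ (T.image (fun t => t.1)).card :=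
            card_le_card (fun c _ => hcon c)
          rw [card_univ] at this
          have : (T.image (fun t : F × F => t.1)).card ≤ T.card := card_image_le
          omega
        obtain ⟨b₀, hb₀⟩ := LinearMap.surjective hπ c
        refine suff (univ.filter (fun u : K => π u = 0)) (fun u => Ln.vl (b₀ + u)) ?_ ?_ hker
        · intro u _ v _ huv
          simp only [Ln.vl.injEq] at huv
          exact add_left_cancel huv
        · intro u hu
          rw [mem_filter] at hu
          refine ⟨by simp, ?_⟩
          rintro (⟨x', y'⟩ | m | _) hp' hin
          · simp only [aff_vl] at hp'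
            simp only [inP] at hin
            apply hc
            rw [mem_image]
            refine ⟨_, hin, ?_⟩
            simp only
            rw [hp', map_add, hu.2, hb₀, add_zero]
          · simp at hp'
          · simp only [inP] at hin
    · -- lines
      rw [mem_DD_inr] at hv
      push Not at hv
      obtain ⟨p₀, hp₀, hin₀⟩ := hv
      have suff : ∀ {α : Type} (s : Finset α) (f : α → Pt K), Set.InjOn f (s : Set α) →
          (∀ a ∈ s, f a ∈ l ∧ inP π T (f a)) → k ≤ s.card →
          k ≤ ((DD π T).filter (fun u => (incGraph (Pt K) (Ln K)).Adj (Sum.inr l) u)).card := by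
        intro α s f hinj hf hs
        refine hs.trans (card_le_card_of_injOn (fun a => Sum.inl (f a)) ?_ ?_)
        · intro a ha
          have := hf a (by simpa using ha)
          rw [mem_coe, mem_filter, mem_DD_inl]
          exact ⟨this.2, this.1⟩
        · intro a ha b hb hab
          exact hinj ha hb (Sum.inl_injective hab)
      rcases l with ⟨m, b⟩ | c | _
      · by_cases hm : m ∈ Set.range (algebraMap F K)
        · obtain ⟨a, rfl⟩ := hm
          rcases p₀ with ⟨x₀, y₀⟩ | m | _
          · simp only [aff_ln] at hp₀
            simp only [inP] at hin₀
            refine suff (univ.filter (fun u : K => π u = 0))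
              (fun u => Pt.aff (x₀ + u) (y₀ + algebraMap F K a * u)) ?_ ?_ hker
            · intro u _ v _ huv
              simp only [Pt.aff.injEq] at huv
              exact add_left_cancel huv.1
            · intro u hu
              rw [mem_filter] at hu
              refine ⟨?_, ?_⟩
              · simp only [aff_ln]
                rw [hp₀]; ring
              · simp only [inP]
                rw [map_add, map_add, pi_mul, hu.2, mul_zero, add_zero, add_zero]
                exact hin₀
          · simp only [dir_ln] at hp₀
            simp only [inP] at hin₀
            exact absurd ⟨a, hp₀.symm⟩ hin₀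
          · simp at hp₀
        · -- slope outside the small field
          choose x hx1 hx2 using fun t : F × F => surj hπ hm (t.1, t.2 - π b)
          refine suff T (fun t => Pt.aff (x t) (m * x t + b)) ?_ ?_ hT1
          · intro t _ t' _ htt
            simp only [Pt.aff.injEq] at htt
            have e1 := hx1 t
            have e2 := hx2 t
            rw [htt.1] at e1 e2
            rw [hx1 t'] at e1
            rw [hx2 t'] at e2
            simp only at e1 e2
            ext
            · exact e1.symm
            · exact (sub_left_inj.1 e2).symm
          · intro t ht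
            refine ⟨by simp, ?_⟩
            simp only [inP]
            rw [hx1, map_add, hx2]
            simpa using ht
      · rcases p₀ with ⟨x₀, y₀⟩ | m | _
        · simp only [aff_vl] at hp₀
          simp only [inP] at hin₀
          refine suff (univ.filter (fun u : K => π u = 0)) (fun u => Pt.aff x₀ (y₀ + u)) ?_ ?_ hker
          · intro u _ v _ huv
            simp only [Pt.aff.injEq, true_and] at huv
            exact add_left_cancel huv
          · intro u hu
            rw [mem_filter] at hu
            refine ⟨by simpa using hp₀, ?_⟩
            simp only [inP]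
            rw [map_add, hu.2, add_zero]
            exact hin₀
        · simp at hp₀
        · simp only [inP] at hin₀
      · refine suff (univ.filter (fun m : K => m ∉ Set.range (algebraMap F K))) (fun m => Pt.dir m)
          ?_ ?_ hout
        · intro u _ v _ huv
          simpa using huv
        · intro u hu
          rw [mem_filter] at hu
          exact ⟨by simp, hu.2⟩

/-- different sets `T` give different sets -/
lemma DD_injective {π : K →ₗ[F] F} (hπ : π ≠ 0) : Function.Injective (DD (K := K) π) := by
  intro T T' h
  ext ⟨s, t⟩
  obtain ⟨x, hx⟩ := LinearMap.surjective hπ s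
  obtain ⟨y, hy⟩ := LinearMap.surjective hπ t
  have h1 : (Sum.inl (Pt.aff x y) : Pt K ⊕ Ln K) ∈ DD π T ↔
      (Sum.inl (Pt.aff x y) : Pt K ⊕ Ln K) ∈ DD π T' := by rw [h]
  rw [mem_DD_inl, mem_DD_inl] at h1
  simp only [inP, hx, hy] at h1
  exact h1

end

end Pool.Agent.Q240.PlaneDIS
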